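import Mathlib

set_option linter.all false

namespace Pool.Agent.R252.BahL

open MvPolynomial

section

variable (K : Type*) [Field K]

/-- polynomials in the variables `i ≤ k < j` -/
noncomputable def supp (i j : ℕ) : Submodule K (MvPolynomial ℕ K) :=
  (supported K (Set.Ico i j)).toSubmodule

variable {K}

lemma mem_supp {i j : ℕ} {p : MvPolynomial ℕ K} :
    p ∈ supp K i j ↔ ∀ d ∈ p.support, ∀ k ∈ d.support, i ≤ k ∧ k < j := by
  unfold supp
  rw [Subalgebra.mem_toSubmodule, mem_supported]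
  constructor
  · intro h d hd k hk
    have : k ∈ p.vars := (mem_vars k).2 ⟨d, hd, hk⟩
    have := h (Finset.mem_coe.2 this)
    simpa using this
  · intro h k hk
    obtain ⟨d, hd, hk'⟩ := (mem_vars k).1 (Finset.mem_coe.1 hk)
    have := h d hd k hk'
    simpa using this

lemma supp_mul {i j : ℕ} {p q : MvPolynomial ℕ K} (hp : p ∈ supp K i j) (hq : q ∈ supp K i j) :
    p * q ∈ supp K i j := by
  unfold supp at *
  rw [Subalgebra.mem_toSubmodule] at *
  exact mul_mem hp hq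

lemma supp_mono {i j i' j' : ℕ} (h1 : i' ≤ i) (h2 : j ≤ j') {p : MvPolynomial ℕ K}
    (hp : p ∈ supp K i j) : p ∈ supp K i' j' := by
  rw [mem_supp] at *
  intro d hd k hk
  have := hp d hd k hk
  omega

/-- the shift of variables -/
noncomputable def sh (m : ℕ) : MvPolynomial ℕ K →ₐ[K] MvPolynomial ℕ K := rename (· + m)

lemma sh_inj (m : ℕ) : Function.Injective (sh (K := K) m) :=
  rename_injective _ (add_left_injective m)

/-- low part of an exponent -/
noncomputable def lo (m : ℕ) (d : ℕ →₀ ℕ) : ℕ →₀ ℕ := d.filter (· < m)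

/-- high part of an exponent, shifted down -/
noncomputable def hi (m : ℕ) (d : ℕ →₀ ℕ) : ℕ →₀ ℕ :=
  d.comapDomain (· + m) ((add_left_injective m).injOn)

/-- slices -/
noncomputable def slice (m : ℕ) (φ : MvPolynomial ℕ K →ₗ[K] K) :
    MvPolynomial ℕ K →ₗ[K] MvPolynomial ℕ K :=
  (basisMonomials ℕ K).constr K (fun d => φ (monomial (lo m d) 1) • monomial (hi m d) 1)

lemma slice_monomial (m : ℕ) (φ : MvPolynomial ℕ K →ₗ[K] K) (d : ℕ →₀ ℕ) :
    slice m φ (monomial d 1) = φ (monomial (lo m d) 1) • monomial (hi m d) 1 := by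
  have := (basisMonomials ℕ K).constr_basis K
    (fun d => φ (monomial (lo m d) 1) • (monomial (hi m d) 1 : MvPolynomial ℕ K)) d
  rw [coe_basisMonomials] at this
  exact this

lemma lo_add (m : ℕ) (d e : ℕ →₀ ℕ) (hd : ∀ k ∈ d.support, k < m) :
    lo m (d + e.mapDomain (· + m)) = d := by
  ext k
  unfold lo
  rw [Finsupp.filter_apply]
  split_ifs with h
  · rw [Finsupp.add_apply, Finsupp.mapDomain_notin_range, add_zero]
    rintro ⟨x, hx⟩
    simp only at hx
    omega
  · by_contra h0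
    exact h (hd k (by rw [Finsupp.mem_support_iff]; exact fun h1 => h0 h1.symm))

lemma hi_add (m : ℕ) (d e : ℕ →₀ ℕ) (hd : ∀ k ∈ d.support, k < m) :
    hi m (d + e.mapDomain (· + m)) = e := by
  ext k
  unfold hi
  rw [Finsupp.comapDomain_apply, Finsupp.add_apply,
    Finsupp.mapDomain_apply (add_left_injective m) e k]
  have : d (k + m) = 0 := by
    by_contra h0
    have := hd _ (Finsupp.mem_support_iff.2 h0)
    omega
  rw [this, zero_add]

lemma slice_mul (m : ℕ) (φ : MvPolynomial ℕ K →ₗ[K] K) (a b : MvPolynomial ℕ K)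
    (ha : a ∈ supp K 0 m) : slice m φ (a * sh m b) = φ a • b := by
  rw [mem_supp] at ha
  have h1 : ∀ d : ℕ →₀ ℕ, (∀ k ∈ d.support, k < m) → ∀ b : MvPolynomial ℕ K,
      slice m φ (monomial d 1 * sh m b) = φ (monomial d 1) • b := by
    intro d hd b
    conv_lhs => rw [b.as_sum]
    conv_rhs => rw [b.as_sum]
    rw [map_sum, Finset.mul_sum, map_sum, Finset.smul_sum]
    refine Finset.sum_congr rfl (fun e _ => ?_)
    have : (sh (K := K) m) (monomial e (coeff e b)) =
        coeff e b • monomial (e.mapDomain (· + m)) 1 := by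
      simp only [sh, rename_monomial, smul_monomial, smul_eq_mul, mul_one]
    rw [this, mul_smul_comm, map_smul, monomial_mul, one_mul, slice_monomial, lo_add m d e hd,
      hi_add m d e hd, smul_comm, smul_monomial, smul_eq_mul, mul_one]
  rw [a.as_sum, Finset.sum_mul, map_sum, map_sum, Finset.sum_smul]
  refine Finset.sum_congr rfl (fun d hd => ?_)
  have h2 : (monomial d (coeff d a) : MvPolynomial ℕ K) = coeff d a • monomial d 1 := by
    rw [smul_monomial, smul_eq_mul, mul_one]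
  rw [h2, smul_mul_assoc, map_smul, h1 d (fun k hk => (ha d hd k hk).2), map_smul, smul_assoc]

/-- the product `P * sh Q` -/
noncomputable def pr (m : ℕ) (P Q : Submodule K (MvPolynomial ℕ K)) :
    Submodule K (MvPolynomial ℕ K) := P * Q.map (sh m).toLinearMap

lemma slice_pr (m : ℕ) (φ : MvPolynomial ℕ K →ₗ[K] K) (P Q : Submodule K (MvPolynomial ℕ K))
    (hP : P ≤ supp K 0 m) :
    ((∀ p ∈ P, φ p = 0) → (pr m P Q).map (slice m φ) = ⊥) ∧
    ((∃ p ∈ P, φ p ≠ 0) → (pr m P Q).map (slice m φ) = Q) := by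
  have h1 : ∀ x ∈ (pr m P Q), slice m φ x ∈ Q := by
    intro x hx
    refine Submodule.mul_induction_on hx ?_ ?_
    · rintro p hp _ ⟨q, hq, rfl⟩
      have := slice_mul m φ p q (hP hp)
      rw [AlgHom.toLinearMap_apply, this]
      exact Submodule.smul_mem _ _ hq
    · intro a b ha hb
      rw [map_add]; exact add_mem ha hb
  constructor
  · intro h
    rw [eq_bot_iff]
    rintro _ ⟨x, hx, rfl⟩
    rw [Submodule.mem_bot]
    refine Submodule.mul_induction_on hx ?_ ?_
    · rintro p hp _ ⟨q, hq, rfl⟩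
      have := slice_mul m φ p q (hP hp)
      rw [AlgHom.toLinearMap_apply, this, h p hp, zero_smul]
    · intro a b ha hb
      rw [map_add, ha, hb, add_zero]
  · rintro ⟨p, hp, hφ⟩
    apply le_antisymm
    · rintro _ ⟨x, hx, rfl⟩
      exact h1 x hx
    · intro q hq
      refine ⟨(φ p)⁻¹ • (p * sh m q), Submodule.smul_mem _ _ (Submodule.mul_mem_mul hp ⟨q, hq, rfl⟩), ?_⟩
      rw [map_smul, slice_mul m φ p q (hP hp), smul_smul, inv_mul_cancel₀ hφ, one_smul]

lemma exists_fun (P : Submodule K (MvPolynomial ℕ K)) (q : MvPolynomial ℕ K) (hq : q ∉ P) :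
    ∃ φ : MvPolynomial ℕ K →ₗ[K] K, (∀ p ∈ P, φ p = 0) ∧ φ q ≠ 0 := by
  obtain ⟨f, h1, h2⟩ := Submodule.exists_le_ker_of_notMem hq
  exact ⟨f, fun p hp => h2 hp, h1⟩

/-- the symmetrised product -/
noncomputable def Z (m : ℕ) (P Q : Submodule K (MvPolynomial ℕ K)) :
    Submodule K (MvPolynomial ℕ K) := pr m P Q ⊔ pr m Q P

lemma Z_comm (m : ℕ) (P Q : Submodule K (MvPolynomial ℕ K)) : Z m P Q = Z m Q P := sup_comm _ _

lemma Z_slice (m : ℕ) (φ : MvPolynomial ℕ K →ₗ[K] K) (P Q : Submodule K (MvPolynomial ℕ K))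
    (hP : P ≤ supp K 0 m) (hQ : Q ≤ supp K 0 m) :
    (Z m P Q).map (slice m φ) ≤ P ⊔ Q ∧
    ((∀ p ∈ P, φ p = 0) → (∃ q ∈ Q, φ q ≠ 0) → (Z m P Q).map (slice m φ) = P) ∧
    ((∃ p ∈ P, φ p ≠ 0) → Q ≤ (Z m P Q).map (slice m φ)) ∧
    ((Z m P Q).map (slice m φ) = ⊥ ∨ (Z m P Q).map (slice m φ) = P ∨
      (Z m P Q).map (slice m φ) = Q ∨ (Z m P Q).map (slice m φ) = P ⊔ Q) := by
  have h1 := slice_pr m φ P Q hP
  have h2 := slice_pr m φ Q P hQ
  unfold Z
  rw [Submodule.map_sup]
  by_cases a : ∃ p ∈ P, φ p ≠ 0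
  · by_cases b : ∃ q ∈ Q, φ q ≠ 0
    · rw [h1.2 a, h2.2 b]
      refine ⟨by rw [sup_comm], fun h => ?_, fun _ => le_sup_left, Or.inr (Or.inr (Or.inr (sup_comm _ _)))⟩
      obtain ⟨p, hp, hp'⟩ := a
      exact absurd (h p hp) hp'
    · push Not at b
      rw [h1.2 a, h2.1 b, sup_bot_eq]
      refine ⟨le_sup_right, fun h => ?_, fun _ => le_rfl, Or.inr (Or.inr (Or.inl rfl))⟩
      obtain ⟨p, hp, hp'⟩ := a
      exact absurd (h p hp) hp'
  · by_cases b : ∃ q ∈ Q, φ q ≠ 0
    · have a' := a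
      push Not at a
      rw [h1.1 a, h2.2 b, bot_sup_eq]
      exact ⟨le_sup_left, fun _ _ => rfl, fun h => absurd h a', Or.inr (Or.inl rfl)⟩
    · have a' := a
      push Not at a
      have b' := b
      push Not at b
      rw [h1.1 a, h2.1 b, bot_sup_eq]
      exact ⟨bot_le, fun _ h => absurd h b', fun h => absurd h a', Or.inl rfl⟩

lemma exists_pos (P : Submodule K (MvPolynomial ℕ K)) (hP : P ≠ ⊥) :
    ∃ φ : MvPolynomial ℕ K →ₗ[K] K, ∃ p ∈ P, φ p ≠ 0 := by
  obtain ⟨p, hp, h0⟩ := Submodule.exists_mem_ne_zero_of_ne_bot hP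
  obtain ⟨φ, _, h2⟩ := exists_fun ⊥ p (by rwa [Submodule.mem_bot])
  exact ⟨φ, p, hp, h2⟩

lemma Z_sup (m : ℕ) (P Q P' Q' : Submodule K (MvPolynomial ℕ K))
    (hP : P ≤ supp K 0 m) (hQ : Q ≤ supp K 0 m) (hP' : P' ≤ supp K 0 m) (hQ' : Q' ≤ supp K 0 m)
    (p0 : P ≠ ⊥) (q0 : Q ≠ ⊥) (h : Z m P Q = Z m P' Q') : P ⊔ Q ≤ P' ⊔ Q' := by
  refine sup_le ?_ ?_
  · obtain ⟨φ, hφ⟩ := exists_pos Q q0
    have h1 := (Z_slice m φ Q P hQ hP).2.2.1 hφ
    rw [Z_comm, h] at h1
    exact h1.trans (Z_slice m φ P' Q' hP' hQ').1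
  · obtain ⟨φ, hφ⟩ := exists_pos P p0
    have h1 := (Z_slice m φ P Q hP hQ).2.2.1 hφ
    rw [h] at h1
    exact h1.trans (Z_slice m φ P' Q' hP' hQ').1

lemma Z_one (m : ℕ) (P Q P' Q' : Submodule K (MvPolynomial ℕ K))
    (hP : P ≤ supp K 0 m) (hQ : Q ≤ supp K 0 m) (hP' : P' ≤ supp K 0 m) (hQ' : Q' ≤ supp K 0 m)
    (p0 : P ≠ ⊥) (h : Z m P Q = Z m P' Q') (hs : P ⊔ Q = P' ⊔ Q') (hn : ¬ Q ≤ P) :
    P = P' ∨ P = Q' := by
  obtain ⟨q, hq, hqP⟩ := Set.not_subset.1 hn
  obtain ⟨φ, h1, h2⟩ := exists_fun P q hqP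
  have h3 := (Z_slice m φ P Q hP hQ).2.1 h1 ⟨q, hq, h2⟩
  rw [h] at h3
  rcases (Z_slice m φ P' Q' hP' hQ').2.2.2 with h4 | h4 | h4 | h4
  · rw [h4] at h3; exact absurd h3.symm p0
  · left; rw [← h3, h4]
  · right; rw [← h3, h4]
  · rw [h4, ← hs] at h3
    exact absurd (sup_eq_left.1 h3) hn

theorem Z_unique (m : ℕ) (P Q P' Q' : Submodule K (MvPolynomial ℕ K))
    (hP : P ≤ supp K 0 m) (hQ : Q ≤ supp K 0 m) (hP' : P' ≤ supp K 0 m) (hQ' : Q' ≤ supp K 0 m)
    (p0 : P ≠ ⊥) (q0 : Q ≠ ⊥) (p0' : P' ≠ ⊥) (q0' : Q' ≠ ⊥) (h : Z m P Q = Z m P' Q') :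
    (P = P' ∧ Q = Q') ∨ (P = Q' ∧ Q = P') := by
  have hs : P ⊔ Q = P' ⊔ Q' :=
    le_antisymm (Z_sup m P Q P' Q' hP hQ hP' hQ' p0 q0 h)
      (Z_sup m P' Q' P Q hP' hQ' hP hQ p0' q0' h.symm)
  have f1 := Z_one m P Q P' Q' hP hQ hP' hQ' p0 h hs
  have f2 := Z_one m Q P P' Q' hQ hP hP' hQ' q0 (by rw [Z_comm, h]) (by rw [sup_comm, hs])
  have f3 := Z_one m P' Q' P Q hP' hQ' hP hQ p0' h.symm hs.symm
  have f4 := Z_one m Q' P' P Q hQ' hP' hP hQ q0' (by rw [Z_comm, h]) (by rw [sup_comm, hs])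
  by_cases a : Q ≤ P
  · by_cases b : P ≤ Q
    · have e : P = Q := le_antisymm b a
      subst e
      rw [sup_idem] at hs
      by_cases c : Q' ≤ P'
      · by_cases d : P' ≤ Q'
        · have e' : P' = Q' := le_antisymm d c
          subst e'
          rw [sup_idem] at hs
          exact Or.inl ⟨hs, hs⟩
        · rcases f4 d with e | e <;>
          · subst e
            exact absurd (le_sup_left.trans hs.ge) d
      · rcases f3 c with e | e <;>
        · subst e
          exact absurd (le_sup_right.trans hs.ge) c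
    · have hsP : P = P' ⊔ Q' := by rw [← hs, sup_eq_left.2 a]
      rcases f2 b with e | e
      · subst e
        right
        refine ⟨?_, rfl⟩
        by_cases c : Q' ≤ Q
        · rw [sup_eq_left.2 c] at hsP
          exact absurd hsP.le b
        · by_cases d : Q ≤ Q'
          · rw [hsP, sup_eq_right.2 d]
          · rcases f4 d with e | e
            · exact e.symm
            · subst e; exact absurd le_rfl c
      · subst e
        left
        refine ⟨?_, rfl⟩
        by_cases c : P' ≤ Q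
        · rw [sup_eq_right.2 c] at hsP
          exact absurd hsP.le b
        · by_cases d : Q ≤ P'
          · rw [hsP, sup_eq_left.2 d]
          · rcases f3 d with e | e
            · exact e.symm
            · subst e; exact absurd le_rfl c
  · by_cases b : P ≤ Q
    · have hsQ : Q = P' ⊔ Q' := by rw [← hs, sup_eq_right.2 b]
      rcases f1 a with e | e
      · subst e
        left
        refine ⟨rfl, ?_⟩
        by_cases c : Q' ≤ P
        · rw [sup_eq_left.2 c] at hsQ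
          exact absurd hsQ.le a
        · by_cases d : P ≤ Q'
          · rw [hsQ, sup_eq_right.2 d]
          · rcases f4 d with e | e
            · subst e; exact absurd le_rfl c
            · exact e.symm
      · subst e
        right
        refine ⟨rfl, ?_⟩
        by_cases c : P' ≤ P
        · rw [sup_eq_right.2 c] at hsQ
          exact absurd hsQ.le a
        · by_cases d : P ≤ P'
          · rw [hsQ, sup_eq_left.2 d]
          · rcases f3 d with e | e
            · subst e; exact absurd le_rfl c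
            · exact e.symm
    · rcases f1 a with e1 | e1
      · rcases f2 b with e2 | e2
        · exact absurd (e2.trans e1.symm).le a
        · exact Or.inl ⟨e1, e2⟩
      · rcases f2 b with e2 | e2
        · exact Or.inr ⟨e1, e2⟩
        · exact absurd (e2.trans e1.symm).le a

end

end Pool.Agent.R252.BahL
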