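import Mathlib
import Pool.Agent.Results.MP_5ecbac_al.Skeleton

set_option linter.all false

universe u

namespace Pool.Agent.R252.Bah

open Pool.Agent.Results.MP_5ecbac_al
open ThreeCherries ThreeCherries.Br Skeleton

section veq

variable (K : Type u) [Field K]

/-- the verbal subspace is an ideal -/
def VI (A : Type u) [LieRing A] [LieAlgebra K A] (s : Br) : LieIdeal K A :=
  { V K A s with
    lie_mem := by
      intro x m hm
      exact V_der K (LieAlgebra.ad K A x : A →ₗ[K] A) (fun a b => by
        simp only [LieAlgebra.ad_apply]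
        exact leibniz_lie x a b) s m hm }

lemma mem_VI (A : Type u) [LieRing A] [LieAlgebra K A] (s : Br) (x : A) :
    x ∈ VI K A s ↔ x ∈ V K A s := Iff.rfl

lemma ev_mk (A : Type u) [LieRing A] [LieAlgebra K A] (I : LieIdeal K A) (s : Br) :
    ∀ x : ℕ → A, ev s (fun n => (LieSubmodule.Quotient.mk (N := I) (x n) : A ⧸ I)) =
      LieSubmodule.Quotient.mk (N := I) (ev s x) := by
  induction s with
  | leaf => intro x; rfl
  | node l r hl hr =>
    intro x
    simp only [ev]
    rw [LieSubmodule.Quotient.mk_bracket, hl x, hr (fun i => x (i + l.deg))]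

lemma V_le_of (A : Type u) [LieRing A] [LieAlgebra K A] (s t : Br)
    (h : ∀ (A : Type u) [LieRing A] [LieAlgebra K A], Holds A t → Holds A s) :
    V K A s ≤ V K A t := by
  refine (V_le K s).trans ?_
  rw [Submodule.span_le]
  rintro _ ⟨x, rfl⟩
  have h1 : Holds (A ⧸ VI K A t) t := by
    intro y
    have hy : ∃ x : ℕ → A, y = fun n => (LieSubmodule.Quotient.mk (N := VI K A t) (x n) : A ⧸ VI K A t) := by
      have : ∀ n, ∃ z : A, (LieSubmodule.Quotient.mk (N := VI K A t) z : A ⧸ VI K A t) = y n := fun n =>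
        Submodule.Quotient.mk_surjective _ (y n)
      choose x hx using this
      exact ⟨x, by funext n; exact (hx n).symm⟩
    obtain ⟨x, rfl⟩ := hy
    rw [ev_mk]
    exact (LieSubmodule.Quotient.mk_eq_zero' ).2 ((mem_VI K A t _).2 (ev_mem K t x))
  have h2 := h _ h1 (fun n => (LieSubmodule.Quotient.mk (N := VI K A t) (x n) : A ⧸ VI K A t))
  rw [ev_mk] at h2
  exact (mem_VI K A t _).1 ((LieSubmodule.Quotient.mk_eq_zero').1 h2)

lemma V_eq (A : Type u) [LieRing A] [LieAlgebra K A] (s t : Br) (h : EquivId K s t) :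
    V K A s = V K A t :=
  le_antisymm (V_le_of K A s t (fun A _ _ hA => (h A).2 hA))
    (V_le_of K A t s (fun A _ _ hA => (h A).1 hA))

end veq

end Pool.Agent.R252.Bah
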