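import Mathlib
import Pool.Agent.R252.BahL
import Pool.Agent.R252.BahV

set_option linter.all false

universe u

namespace Pool.Agent.R252.BahM

open Pool.Agent.Results.MP_5ecbac_al
open ThreeCherries ThreeCherries.Br Skeleton MvPolynomial BahL Bah

attribute [local instance 100] LieRing.ofAssociativeRing

variable (K : Type u) [Field K]

noncomputable def hh (i : ℕ) : MvPolynomial ℕ K := ∑ k ∈ Finset.range i, X k

noncomputable def w (i j : ℕ) : MvPolynomial ℕ K := hh K j - hh K i

lemma w_eq {i j : ℕ} (h : i ≤ j) : w K i j = ∑ k ∈ Finset.Ico i j, X k := by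
  unfold w hh
  rw [Finset.sum_Ico_eq_sub _ h]

lemma w_mem {i j i' j' : ℕ} (h : i ≤ j) (h1 : i' ≤ i) (h2 : j ≤ j') : w K i j ∈ supp K i' j' := by
  rw [w_eq K h]
  refine Submodule.sum_mem _ (fun k hk => ?_)
  unfold supp
  rw [Subalgebra.mem_toSubmodule, X_mem_supported]
  rw [Finset.mem_Ico] at hk
  exact ⟨by omega, by omega⟩

/-- the test algebra -/
noncomputable def M (N : ℕ) : LieSubalgebra K (Matrix (Fin (N + 1)) (Fin (N + 1)) (MvPolynomial ℕ K)) where
  carrier := {x | (∃ a : K, ∀ i : Fin (N + 1), x i i = a • hh K i.val) ∧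
    (∀ i j : Fin (N + 1), j.val < i.val → x i j = 0) ∧
    ∀ i j : Fin (N + 1), i.val < j.val → x i j ∈ supp K i.val j.val}
  zero_mem' := ⟨⟨0, fun i => by simp⟩, fun i j _ => rfl, fun i j _ => by
    rw [Matrix.zero_apply]; exact Submodule.zero_mem _⟩
  add_mem' := by
    rintro x y ⟨⟨a, ha⟩, h1, h2⟩ ⟨⟨b, hb⟩, h3, h4⟩
    refine ⟨⟨a + b, fun i => ?_⟩, fun i j hij => ?_, fun i j hij => ?_⟩
    · rw [Matrix.add_apply, ha, hb, add_smul]
    · rw [Matrix.add_apply, h1 i j hij, h3 i j hij, add_zero]
    · rw [Matrix.add_apply]; exact add_mem (h2 i j hij) (h4 i j hij)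
  smul_mem' := by
    rintro c x ⟨⟨a, ha⟩, h1, h2⟩
    refine ⟨⟨c * a, fun i => ?_⟩, fun i j hij => ?_, fun i j hij => ?_⟩
    · rw [Matrix.smul_apply, ha, mul_smul]
    · rw [Matrix.smul_apply, h1 i j hij, smul_zero]
    · rw [Matrix.smul_apply]; exact Submodule.smul_mem _ _ (h2 i j hij)
  lie_mem' := by
    rintro x y ⟨⟨a, ha⟩, h1, h2⟩ ⟨⟨b, hb⟩, h3, h4⟩
    refine ⟨⟨0, fun i => ?_⟩, fun i j hij => ?_, fun i j hij => ?_⟩
    · rw [Ring.lie_def, Matrix.sub_apply, Matrix.mul_apply, Matrix.mul_apply,
        Finset.sum_eq_single i, Finset.sum_eq_single i, zero_smul, mul_comm, sub_self]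
      · intro k _ hk
        rcases Nat.lt_trichotomy k.val i.val with h | h | h
        · rw [h3 i k h, zero_mul]
        · exact absurd (Fin.ext h) hk
        · rw [h1 k i h, mul_zero]
      · intro h; exact absurd (Finset.mem_univ _) h
      · intro k _ hk
        rcases Nat.lt_trichotomy k.val i.val with h | h | h
        · rw [h1 i k h, zero_mul]
        · exact absurd (Fin.ext h) hk
        · rw [h3 k i h, mul_zero]
      · intro h; exact absurd (Finset.mem_univ _) h
    · rw [Ring.lie_def, Matrix.sub_apply, Matrix.mul_apply, Matrix.mul_apply,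
        Finset.sum_eq_zero, Finset.sum_eq_zero, sub_zero]
      · intro k _
        rcases Nat.lt_or_ge k.val i.val with h | h
        · rw [h3 i k h, zero_mul]
        · rw [h1 k j (by omega), mul_zero]
      · intro k _
        rcases Nat.lt_or_ge k.val i.val with h | h
        · rw [h1 i k h, zero_mul]
        · rw [h3 k j (by omega), mul_zero]
    · rw [Ring.lie_def, Matrix.sub_apply, Matrix.mul_apply, Matrix.mul_apply,
        ← Finset.sum_sub_distrib]
      have hne : j ≠ i := fun h => by rw [h] at hij; exact lt_irrefl _ hij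
      rw [← Finset.add_sum_erase _ _ (Finset.mem_univ i),
        ← Finset.add_sum_erase _ _ (Finset.mem_erase.2 ⟨hne, Finset.mem_univ j⟩), ← add_assoc]
      refine add_mem ?_ (Submodule.sum_mem _ (fun k hk => ?_))
      · have e : x i i * y i j - y i i * x i j + (x i j * y j j - y i j * x j j) =
            b • (w K i.val j.val * x i j) - a • (w K i.val j.val * y i j) := by
          rw [ha i, ha j, hb i, hb j]
          unfold w
          simp only [smul_eq_C_mul]
          ring
        rw [e]
        exact sub_mem (Submodule.smul_mem _ _ (supp_mul (w_mem K hij.le le_rfl le_rfl) (h2 i j hij)))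
          (Submodule.smul_mem _ _ (supp_mul (w_mem K hij.le le_rfl le_rfl) (h4 i j hij)))
      · rw [Finset.mem_erase, Finset.mem_erase] at hk
        obtain ⟨hkj, hki, _⟩ := hk
        rcases Nat.lt_trichotomy k.val i.val with h | h | h
        · rw [h1 i k h, h3 i k h, zero_mul, zero_mul, sub_zero]; exact Submodule.zero_mem _
        · exact absurd (Fin.ext h) hki
        rcases Nat.lt_trichotomy k.val j.val with h' | h' | h'
        · exact sub_mem (supp_mul (supp_mono le_rfl h'.le (h2 i k h)) (supp_mono h.le le_rfl (h4 k j h')))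
            (supp_mul (supp_mono le_rfl h'.le (h4 i k h)) (supp_mono h.le le_rfl (h2 k j h')))
        · exact absurd (Fin.ext h') hkj
        · rw [h1 k j h', h3 k j h', mul_zero, mul_zero, sub_zero]; exact Submodule.zero_mem _

/-- the polynomial spaces -/
noncomputable def P : Br → ℕ → Submodule K (MvPolynomial ℕ K)
  | leaf, _ => ⊥
  | node leaf leaf, i => (supp K i (i + 1)).map (LinearMap.mulLeft K (w K i (i + 1)))
  | node leaf (node a b), i =>
    (P (node a b) i).map (LinearMap.mulLeft K (w K i (i + (node a b).cherries)))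
  | node (node a b) leaf, i =>
    (P (node a b) i).map (LinearMap.mulLeft K (w K i (i + (node a b).cherries)))
  | node (node a b) (node c d), i =>
    P (node a b) i * P (node c d) (i + (node a b).cherries) ⊔
      P (node c d) i * P (node a b) (i + (node c d).cherries)

lemma P_ll (i : ℕ) : P K (node leaf leaf) i =
    (supp K i (i + 1)).map (LinearMap.mulLeft K (w K i (i + 1))) := by rw [P]

lemma P_ln (s : Br) (hs : s ≠ leaf) (i : ℕ) : P K (node leaf s) i =
    (P K s i).map (LinearMap.mulLeft K (w K i (i + s.cherries))) := by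
  cases s with
  | leaf => exact absurd rfl hs
  | node a b => rw [P]

lemma P_nl (s : Br) (hs : s ≠ leaf) (i : ℕ) : P K (node s leaf) i =
    (P K s i).map (LinearMap.mulLeft K (w K i (i + s.cherries))) := by
  cases s with
  | leaf => exact absurd rfl hs
  | node a b => rw [P]

lemma P_nn (s t : Br) (hs : s ≠ leaf) (ht : t ≠ leaf) (i : ℕ) : P K (node s t) i =
    P K s i * P K t (i + s.cherries) ⊔ P K t i * P K s (i + t.cherries) := by
  cases s with
  | leaf => exact absurd rfl hs
  | node a b =>
    cases t with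
    | leaf => exact absurd rfl ht
    | node c d => rw [P]

lemma ch_ll : (node leaf leaf).cherries = 1 := rfl

lemma ch_ln (s : Br) (hs : s ≠ leaf) : (node leaf s).cherries = s.cherries := by
  cases s with
  | leaf => exact absurd rfl hs
  | node a b => simp [cherries]

lemma ch_nl (s : Br) (hs : s ≠ leaf) : (node s leaf).cherries = s.cherries := by
  cases s with
  | leaf => exact absurd rfl hs
  | node a b => simp [cherries]

lemma ch_nn (s t : Br) (hs : s ≠ leaf) (ht : t ≠ leaf) :
    (node s t).cherries = s.cherries + t.cherries := by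
  cases s with
  | leaf => exact absurd rfl hs
  | node a b =>
    cases t with
    | leaf => exact absurd rfl ht
    | node c d => simp [cherries]

lemma ch_pos (s : Br) (hs : s ≠ leaf) : 1 ≤ s.cherries := by
  cases s with
  | leaf => exact absurd rfl hs
  | node a b => exact cherries_pos a b

variable {K} {N : ℕ}

/-- the property of the entries -/
def Pr (s : Br) (x : Matrix (Fin (N + 1)) (Fin (N + 1)) (MvPolynomial ℕ K)) : Prop :=
  ∀ i j : Fin (N + 1), (j.val < i.val + s.cherries → x i j = 0) ∧
    (j.val = i.val + s.cherries → x i j ∈ P K s i.val)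

lemma Pr_zero (s : Br) : Pr s (0 : Matrix (Fin (N + 1)) (Fin (N + 1)) (MvPolynomial ℕ K)) :=
  fun i j => ⟨fun _ => rfl, fun _ => by rw [Matrix.zero_apply]; exact Submodule.zero_mem _⟩

lemma Pr_add (s : Br) {x y : Matrix (Fin (N + 1)) (Fin (N + 1)) (MvPolynomial ℕ K)}
    (hx : Pr s x) (hy : Pr s y) : Pr s (x + y) :=
  fun i j => ⟨fun h => by rw [Matrix.add_apply, (hx i j).1 h, (hy i j).1 h, add_zero],
    fun h => by rw [Matrix.add_apply]; exact add_mem ((hx i j).2 h) ((hy i j).2 h)⟩

lemma Pr_smul (s : Br) (c : K) {x : Matrix (Fin (N + 1)) (Fin (N + 1)) (MvPolynomial ℕ K)}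
    (hx : Pr s x) : Pr s (c • x) :=
  fun i j => ⟨fun h => by rw [Matrix.smul_apply, (hx i j).1 h, smul_zero],
    fun h => by rw [Matrix.smul_apply]; exact Submodule.smul_mem _ _ ((hx i j).2 h)⟩

lemma Pr_neg (s : Br) {x : Matrix (Fin (N + 1)) (Fin (N + 1)) (MvPolynomial ℕ K)}
    (hx : Pr s x) : Pr s (-x) := by
  have := Pr_smul s (-1 : K) hx
  rwa [neg_smul, one_smul] at this

lemma band_mul {a b : ℕ} {x y : Matrix (Fin (N + 1)) (Fin (N + 1)) (MvPolynomial ℕ K)}
    (hx : ∀ i j : Fin (N + 1), j.val < i.val + a → x i j = 0)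
    (hy : ∀ i j : Fin (N + 1), j.val < i.val + b → y i j = 0) (i j : Fin (N + 1)) :
    (j.val < i.val + (a + b) → (x * y) i j = 0) ∧
    (∀ k : Fin (N + 1), k.val = i.val + a → j.val = k.val + b → (x * y) i j = x i k * y k j) := by
  constructor
  · intro h
    rw [Matrix.mul_apply]
    refine Finset.sum_eq_zero (fun k _ => ?_)
    rcases Nat.lt_or_ge k.val (i.val + a) with hk | hk
    · rw [hx i k hk, zero_mul]
    · rw [hy k j (by omega), mul_zero]
  · intro k hk hj
    rw [Matrix.mul_apply, Finset.sum_eq_single k]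
    · intro l _ hl
      rcases Nat.lt_trichotomy l.val k.val with h | h | h
      · rw [hx i l (by omega), zero_mul]
      · exact absurd (Fin.ext h) hl
      · rw [hy l j (by omega), mul_zero]
    · intro h; exact absurd (Finset.mem_univ _) h

lemma lead_mul (r : Br) (hr : r ≠ leaf) (x : M K N)
    {y : Matrix (Fin (N + 1)) (Fin (N + 1)) (MvPolynomial ℕ K)} (hy : Pr r y) :
    Pr (node leaf r) (⁅(x : Matrix (Fin (N + 1)) (Fin (N + 1)) (MvPolynomial ℕ K)), y⁆) := by
  obtain ⟨x, ⟨a, ha⟩, h1, h2⟩ := x
  have hc := ch_pos r hr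
  intro i j
  rw [ch_ln r hr, Ring.lie_def, Matrix.sub_apply]
  have e1 := band_mul (a := 0) (b := r.cherries) (x := x) (y := y)
    (fun i j h => h1 i j (by omega)) (fun i j h => (hy i j).1 h) i j
  have e2 := band_mul (a := r.cherries) (b := 0) (x := y) (y := x)
    (fun i j h => (hy i j).1 h) (fun i j h => h1 i j (by omega)) i j
  simp only
  constructor
  · intro h
    rw [e1.1 (by omega), e2.1 (by omega), sub_zero]
  · intro h
    rw [e1.2 i (by omega) h, e2.2 j h (by omega), ha i, ha j, P_ln K r hr]
    refine ⟨(-a) • y i j, Submodule.smul_mem _ _ ((hy i j).2 h), ?_⟩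
    rw [LinearMap.mulLeft_apply, ← h]
    unfold w
    simp only [smul_eq_C_mul, map_neg]
    ring

lemma cherry_mul (x y : M K N) :
    Pr (node leaf leaf) (⁅(x : Matrix (Fin (N + 1)) (Fin (N + 1)) (MvPolynomial ℕ K)),
      (y : Matrix (Fin (N + 1)) (Fin (N + 1)) (MvPolynomial ℕ K))⁆) := by
  have hxy := (M K N).lie_mem x.2 y.2
  obtain ⟨x, ⟨a, ha⟩, h1, h2⟩ := x
  obtain ⟨y, ⟨b, hb⟩, h3, h4⟩ := y
  simp only at hxy ⊢
  intro i j
  rw [ch_ll]
  constructor
  · intro h
    rcases Nat.lt_or_ge j.val i.val with h' | h'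
    · exact hxy.2.1 i j h'
    · have e : j = i := Fin.ext (by omega)
      subst e
      rw [Ring.lie_def, Matrix.sub_apply]
      rw [(band_mul (a := 0) (b := 0) (x := x) (y := y)
        (fun i j h => h1 i j (by omega)) (fun i j h => h3 i j (by omega)) j j).2 j rfl rfl,
        (band_mul (a := 0) (b := 0) (x := y) (y := x)
        (fun i j h => h3 i j (by omega)) (fun i j h => h1 i j (by omega)) j j).2 j rfl rfl]
      ring
  · intro h
    rw [P_ll]
    refine ⟨b • x i j - a • y i j, sub_mem (Submodule.smul_mem _ _ ?_) (Submodule.smul_mem _ _ ?_), ?_⟩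
    · have := h2 i j (by omega); rwa [h] at this
    · have := h4 i j (by omega); rwa [h] at this
    rw [LinearMap.mulLeft_apply, Ring.lie_def, Matrix.sub_apply, Matrix.mul_apply, Matrix.mul_apply,
        ← Finset.sum_sub_distrib]
    have hne : j ≠ i := fun h0 => by rw [h0] at h; omega
    rw [← Finset.add_sum_erase _ _ (Finset.mem_univ i),
      ← Finset.add_sum_erase _ _ (Finset.mem_erase.2 ⟨hne, Finset.mem_univ j⟩), ← add_assoc,
      Finset.sum_eq_zero (s := (Finset.univ.erase i).erase j), add_zero, ha i, ha j, hb i, hb j,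
      ← h]
    · unfold w
      simp only [smul_eq_C_mul]
      ring
    · intro k hk
      rw [Finset.mem_erase, Finset.mem_erase] at hk
      obtain ⟨hkj, hki, _⟩ := hk
      rcases Nat.lt_trichotomy k.val i.val with h' | h' | h'
      · rw [h1 i k h', h3 i k h', zero_mul, zero_mul, sub_zero]
      · exact absurd (Fin.ext h') hki
      rcases Nat.lt_trichotomy k.val j.val with h'' | h'' | h''
      · omega
      · exact absurd (Fin.ext h'') hkj
      · rw [h1 k j h'', h3 k j h'', mul_zero, mul_zero, sub_zero]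

lemma node_mul (l r : Br) (hl : l ≠ leaf) (hr : r ≠ leaf)
    {x y : Matrix (Fin (N + 1)) (Fin (N + 1)) (MvPolynomial ℕ K)} (hx : Pr l x) (hy : Pr r y) :
    Pr (node l r) ⁅x, y⁆ := by
  intro i j
  rw [ch_nn l r hl hr, Ring.lie_def, Matrix.sub_apply]
  have e1 := band_mul (fun i j h => (hx i j).1 h) (fun i j h => (hy i j).1 h) i j
  have e2 := band_mul (fun i j h => (hy i j).1 h) (fun i j h => (hx i j).1 h) i j
  constructor
  · intro h
    rw [e1.1 h, e2.1 (by omega), sub_zero]
  · intro h
    have hj := j.2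
    rw [e1.2 ⟨i.val + l.cherries, by omega⟩ rfl (by simp only; omega),
      e2.2 ⟨i.val + r.cherries, by omega⟩ rfl (by simp only; omega), P_nn K l r hl hr]
    refine sub_mem (Submodule.mem_sup_left (Submodule.mul_mem_mul ((hx _ _).2 rfl) ?_))
      (Submodule.mem_sup_right (Submodule.mul_mem_mul ((hy _ _).2 rfl) ?_))
    · exact (hy ⟨i.val + l.cherries, by omega⟩ j).2 (by simp only; omega)
    · exact (hx ⟨i.val + r.cherries, by omega⟩ j).2 (by simp only; omega)

lemma V_entry (s : Br) (hs : s ≠ leaf) : ∀ x ∈ V K (M K N) s,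
    Pr s (x : Matrix (Fin (N + 1)) (Fin (N + 1)) (MvPolynomial ℕ K)) := by
  induction s with
  | leaf => exact absurd rfl hs
  | node l r hl hr =>
    intro x hx
    rw [V] at hx
    induction hx using Submodule.span_induction with
    | mem z hz =>
      obtain ⟨x, hx, y, hy, rfl⟩ := hz
      rw [LieSubalgebra.coe_bracket]
      by_cases h1 : l = leaf
      · subst h1
        by_cases h2 : r = leaf
        · subst h2
          exact cherry_mul x y
        · exact lead_mul r h2 x (hr h2 y hy)
      · by_cases h2 : r = leaf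
        · subst h2
          have := Pr_neg _ (lead_mul l h1 y (hl h1 x hx))
          rw [lie_skew] at this
          intro i j
          have h3 := this i j
          rw [ch_ln l h1, P_ln K l h1] at h3
          rw [ch_nl l h1, P_nl K l h1]
          exact h3
        · exact node_mul l r h1 h2 (hl h1 x hx) (hr h2 y hy)
    | zero => exact Pr_zero _
    | add a b _ _ iha ihb => exact Pr_add _ iha ihb
    | smul c a _ iha => exact Pr_smul _ c iha

end Pool.Agent.R252.BahM
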