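import Mathlib
import Pool.Agent.R252.BahM

set_option linter.all false

universe u

namespace Pool.Agent.R252.BahD

open Pool.Agent.Results.MP_5ecbac_al
open ThreeCherries ThreeCherries.Br Skeleton MvPolynomial BahL Bah BahM

variable {K : Type u} [Field K]

/-- the substitution killing `w 0 n` -/
noncomputable def psi (n : ℕ) : MvPolynomial ℕ K →ₐ[K] MvPolynomial ℕ K :=
  aeval (fun k => if k = 0 then -∑ j ∈ Finset.Ico 1 n, (X j : MvPolynomial ℕ K) else X k)

noncomputable def chi (n : ℕ) : MvPolynomial ℕ K →ₐ[K] MvPolynomial ℕ K :=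
  aeval (fun k => if k = n then -(X 0 : MvPolynomial ℕ K) - ∑ j ∈ Finset.Ico 1 n, X j else X k)

lemma psi_w (n : ℕ) (hn : 1 ≤ n) : psi n (w K 0 n) = 0 := by
  rw [w_eq K (by omega), Finset.sum_eq_sum_Ico_succ_bot (by omega), map_add, map_sum]
  unfold psi
  rw [aeval_X, if_pos rfl]
  have : ∀ k ∈ Finset.Ico (0 + 1) n, (aeval (fun k => if k = 0 then -∑ j ∈ Finset.Ico 1 n, (X j : MvPolynomial ℕ K) else X k)) (X k : MvPolynomial ℕ K) = X k := by
    intro k hk
    rw [Finset.mem_Ico] at hk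
    rw [aeval_X, if_neg (by omega)]
  rw [Finset.sum_congr rfl this]
  simp

lemma psi_sh (n m : ℕ) (hm : 1 ≤ m) (b : MvPolynomial ℕ K) : psi n (sh m b) = sh m b := by
  have : (psi n).comp (sh m) = sh (K := K) m := by
    ext k
    simp only [AlgHom.comp_apply, sh, rename_X, psi, aeval_X]
    rw [if_neg (by omega)]
  exact congrArg (fun f => f b) this

lemma chi_psi (m : ℕ) (hm : 1 ≤ m) (a : MvPolynomial ℕ K) (ha : a ∈ supp K 0 m) :
    chi (2 * m - 1) (psi (2 * m) a) = a := by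
  have h1 : Set.EqOn ((chi (K := K) (2 * m - 1)).comp (psi (2 * m))) (AlgHom.id K _)
      (X '' Set.Ico 0 m) := by
    rintro _ ⟨k, hk, rfl⟩
    simp only [AlgHom.comp_apply, AlgHom.id_apply, psi, aeval_X]
    rw [Set.mem_Ico] at hk
    by_cases h0 : k = 0
    · subst h0
      rw [if_pos rfl, map_neg, map_sum]
      have e : 2 * m = (2 * m - 1) + 1 := by omega
      rw [e, Finset.sum_Ico_succ_top (by omega)]
      have h3 : (chi (2 * m - 1 + 1 - 1)) (X (2 * m - 1) : MvPolynomial ℕ K) =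
          -(X 0 : MvPolynomial ℕ K) - ∑ j ∈ Finset.Ico 1 (2 * m - 1), X j := by
        simp only [chi, aeval_X, Nat.add_sub_cancel, if_true]
      have h4 : ∀ k ∈ Finset.Ico 1 (2 * m - 1), (chi (2 * m - 1 + 1 - 1)) (X k : MvPolynomial ℕ K) = X k := by
        intro k hk
        rw [Finset.mem_Ico] at hk
        simp only [chi, aeval_X, Nat.add_sub_cancel]
        rw [if_neg (by omega)]
      rw [h3, Finset.sum_congr rfl h4]
      ring
    · rw [if_neg h0]
      simp only [chi, aeval_X]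
      rw [if_neg (by omega)]
  have h2 := AlgHom.adjoin_le_equalizer _ _ h1
  have h3 : a ∈ Algebra.adjoin K (X '' Set.Ico 0 m : Set (MvPolynomial ℕ K)) := ha
  have h4 := h2 h3
  rw [AlgHom.mem_equalizer] at h4
  exact h4

lemma not_dvd (m : ℕ) (hm : 1 ≤ m) (a b q : MvPolynomial ℕ K) (ha : a ∈ supp K 0 m) (ha0 : a ≠ 0)
    (hb0 : b ≠ 0) : w K 0 (2 * m) * q ≠ a * sh m b := by
  intro h
  have h1 := congrArg (psi (2 * m)) h
  rw [map_mul, map_mul, psi_w _ (by omega), zero_mul, psi_sh _ _ hm] at h1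
  rcases mul_eq_zero.1 h1.symm with h2 | h2
  · apply ha0
    rw [← chi_psi m hm a ha, h2, map_zero]
  · exact hb0 ((map_eq_zero_iff _ (sh_inj m)).1 h2)

lemma w_ne (n : ℕ) (hn : 1 ≤ n) : w K 0 n ≠ 0 := by
  intro h
  rw [w_eq K (by omega)] at h
  have := congrArg (fun p => eval (fun k => if k = 0 then (1 : K) else 0) p) h
  simp only [map_sum, eval_X, map_zero] at this
  rw [Finset.sum_eq_single 0] at this
  · simp at this
  · intro b _ hb; simp [hb]
  · intro h0; exact absurd (Finset.mem_Ico.2 ⟨le_rfl, by omega⟩) h0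

/-- powers of `w` in front of symmetrised products are determined -/
theorem cancel (m : ℕ) (hm : 1 ≤ m) (k k' : ℕ) (S Q S' Q' : Submodule K (MvPolynomial ℕ K))
    (hS : S ≤ supp K 0 m) (hS' : S' ≤ supp K 0 m) (s0 : S ≠ ⊥) (q0 : Q ≠ ⊥)
    (s0' : S' ≠ ⊥) (q0' : Q' ≠ ⊥)
    (h : (Z m S Q).map (LinearMap.mulLeft K (w K 0 (2 * m) ^ k)) =
      (Z m S' Q').map (LinearMap.mulLeft K (w K 0 (2 * m) ^ k'))) :
    k = k' ∧ Z m S Q = Z m S' Q' := by
  have key : ∀ (k k' : ℕ) (S Q S' Q' : Submodule K (MvPolynomial ℕ K)),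
    S ≤ supp K 0 m → S ≠ ⊥ → Q ≠ ⊥ →
    (Z m S Q).map (LinearMap.mulLeft K (w K 0 (2 * m) ^ k)) =
      (Z m S' Q').map (LinearMap.mulLeft K (w K 0 (2 * m) ^ k')) → k' ≤ k := by
    intro k k' S Q S' Q' hS s0 q0 h
    by_contra hlt
    push Not at hlt
    obtain ⟨a, ha, ha0⟩ := Submodule.exists_mem_ne_zero_of_ne_bot s0
    obtain ⟨b, hb, hb0⟩ := Submodule.exists_mem_ne_zero_of_ne_bot q0
    have h1 : a * sh m b ∈ Z m S Q :=
      Submodule.mem_sup_left (Submodule.mul_mem_mul ha ⟨b, hb, rfl⟩)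
    have h2 : LinearMap.mulLeft K (w K 0 (2 * m) ^ k) (a * sh m b) ∈
        (Z m S' Q').map (LinearMap.mulLeft K (w K 0 (2 * m) ^ k')) := by
      rw [← h]; exact ⟨_, h1, rfl⟩
    obtain ⟨z, _, hz⟩ := h2
    rw [LinearMap.mulLeft_apply, LinearMap.mulLeft_apply] at hz
    obtain ⟨d, rfl⟩ := Nat.exists_eq_add_of_lt hlt
    have e : w K 0 (2 * m) ^ k * (w K 0 (2 * m) * (w K 0 (2 * m) ^ d * z)) =
        w K 0 (2 * m) ^ k * (a * sh m b) := by
      rw [← hz]; ring
    have := mul_left_cancel₀ (pow_ne_zero _ (w_ne (2 * m) (by omega))) e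
    exact not_dvd m hm a b _ (hS ha) ha0 hb0 this
  have e : k = k' := le_antisymm (key k' k S' Q' S Q hS' s0' q0' h.symm) (key k k' S Q S' Q' hS s0 q0 h)
  refine ⟨e, ?_⟩
  subst e
  have hinj : Function.Injective (LinearMap.mulLeft K (w K 0 (2 * m) ^ k)) := by
    intro x y hxy
    rw [LinearMap.mulLeft_apply, LinearMap.mulLeft_apply] at hxy
    exact mul_left_cancel₀ (pow_ne_zero _ (w_ne (2 * m) (by omega))) hxy
  exact Submodule.map_injective_of_injective hinj h

theorem cancel0 (k k' : ℕ) 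
    (h : (supp K 0 1).map (LinearMap.mulLeft K (w K 0 1 ^ (k + 1))) =
      (supp K 0 1).map (LinearMap.mulLeft K (w K 0 1 ^ (k' + 1)))) : k = k' := by
  have key : ∀ k k' : ℕ, (supp K 0 1).map (LinearMap.mulLeft K (w K 0 1 ^ (k + 1))) =
      (supp K 0 1).map (LinearMap.mulLeft K (w K 0 1 ^ (k' + 1))) → k' ≤ k := by
    intro k k' h
    by_contra hlt
    push Not at hlt
    have h1 : (1 : MvPolynomial ℕ K) ∈ supp K 0 1 := by
      unfold supp
      rw [Subalgebra.mem_toSubmodule]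
      exact one_mem _
    have h2 : LinearMap.mulLeft K (w K 0 1 ^ (k + 1)) 1 ∈
        (supp K 0 1).map (LinearMap.mulLeft K (w K 0 1 ^ (k' + 1))) := by
      rw [← h]; exact ⟨_, h1, rfl⟩
    obtain ⟨z, _, hz⟩ := h2
    rw [LinearMap.mulLeft_apply, LinearMap.mulLeft_apply, mul_one] at hz
    obtain ⟨d, rfl⟩ := Nat.exists_eq_add_of_lt hlt
    have e : w K 0 1 ^ (k + 1) * (w K 0 1 * (w K 0 1 ^ d * z)) = w K 0 1 ^ (k + 1) * 1 := by
      rw [mul_one, ← mul_assoc, ← mul_assoc, ← pow_succ, ← pow_add]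
      have e3 : k + 1 + 1 + d = k + d + 1 + 1 := by omega
      rw [e3, hz]
    have := mul_left_cancel₀ (pow_ne_zero _ (w_ne 1 le_rfl)) e
    have h3 := congrArg (psi 1) this
    rw [map_mul, psi_w 1 le_rfl, zero_mul, map_one] at h3
    exact zero_ne_one h3
  exact le_antisymm (key k' k h.symm) (key k k' h)

end Pool.Agent.R252.BahD
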