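import Mathlib
import Pool.Agent.R252.BahM

set_option linter.all false

universe u

namespace Pool.Agent.R252.BahN

open Pool.Agent.Results.MP_5ecbac_al
open ThreeCherries ThreeCherries.Br Skeleton MvPolynomial BahL Bah BahM

attribute [local instance 100] LieRing.ofAssociativeRing

variable {K : Type u} [Field K] {N : ℕ}

lemma P_supp (s : Br) (hs : s ≠ leaf) : ∀ i, P K s i ≤ supp K i (i + s.cherries) := by
  induction s with
  | leaf => exact absurd rfl hs
  | node l r hl hr =>
    intro i
    by_cases h1 : l = leaf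
    · subst h1
      by_cases h2 : r = leaf
      · subst h2
        rw [P_ll, ch_ll]
        rintro _ ⟨q, hq, rfl⟩
        exact supp_mul (w_mem K (by omega) le_rfl le_rfl) hq
      · rw [P_ln K r h2, ch_ln r h2]
        rintro _ ⟨q, hq, rfl⟩
        exact supp_mul (w_mem K (by omega) le_rfl le_rfl) (hr h2 i hq)
    · by_cases h2 : r = leaf
      · subst h2
        rw [P_nl K l h1, ch_nl l h1]
        rintro _ ⟨q, hq, rfl⟩
        exact supp_mul (w_mem K (by omega) le_rfl le_rfl) (hl h1 i hq)
      · rw [P_nn K l r h1 h2, ch_nn l r h1 h2]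
        refine sup_le ?_ ?_
        · rw [Submodule.mul_le]
          intro p hp q hq
          exact supp_mul (supp_mono le_rfl (by omega) (hl h1 i hp))
            (supp_mono (by omega) (by omega) (hr h2 _ hq))
        · rw [Submodule.mul_le]
          intro p hp q hq
          exact supp_mul (supp_mono le_rfl (by omega) (hr h2 i hp))
            (supp_mono (by omega) (by omega) (hl h1 _ hq))

/-- the diagonal element -/
noncomputable def dg : M K N := ⟨Matrix.diagonal (fun i => hh K i.val),
  ⟨1, fun i => by rw [Matrix.diagonal_apply_eq, one_smul]⟩,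
  fun i j h => Matrix.diagonal_apply_ne _ (fun h0 => by rw [h0] at h; exact lt_irrefl _ h),
  fun i j h => by
    rw [Matrix.diagonal_apply_ne _ (fun h0 => by rw [h0] at h; exact lt_irrefl _ h)]
    exact Submodule.zero_mem _⟩

lemma sg_mem (i j : Fin (N + 1)) (h : i.val < j.val) (p : MvPolynomial ℕ K)
    (hp : p ∈ supp K i.val j.val) : Matrix.single i j p ∈ M K N := by
  have hne : i ≠ j := fun h0 => by rw [h0] at h; exact lt_irrefl _ h
  refine ⟨⟨0, fun a => ?_⟩, fun a b hab => ?_, fun a b hab => ?_⟩
  · rw [zero_smul, Matrix.single_apply_of_ne]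
    rintro ⟨h1, h2⟩
    exact hne (h1.trans h2.symm)
  · rw [Matrix.single_apply_of_ne]
    rintro ⟨h1, h2⟩
    subst h1 h2
    omega
  · by_cases h0 : i = a ∧ j = b
    · obtain ⟨h1, h2⟩ := h0
      subst h1 h2
      rw [Matrix.single_apply_same]
      exact hp
    · rw [Matrix.single_apply_of_ne _ _ _ _ _ h0]
      exact Submodule.zero_mem _

lemma dg_single (i j : Fin (N + 1)) (p : MvPolynomial ℕ K) :
    -⁅(Matrix.diagonal (fun i : Fin (N + 1) => hh K i.val)), Matrix.single i j p⁆ =
      Matrix.single i j (w K i.val j.val * p) := by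
  ext a b
  rw [Ring.lie_def, Matrix.neg_apply, Matrix.sub_apply, Matrix.diagonal_mul, Matrix.mul_diagonal]
  by_cases h0 : i = a ∧ j = b
  · obtain ⟨h1, h2⟩ := h0
    subst h1 h2
    rw [Matrix.single_apply_same, Matrix.single_apply_same]
    unfold w
    ring
  · rw [Matrix.single_apply_of_ne _ _ _ _ _ h0, Matrix.single_apply_of_ne _ _ _ _ _ h0]
    ring

/-- the realised polynomials -/
noncomputable def T (s : Br) (i j : Fin (N + 1)) : Submodule K (MvPolynomial ℕ K) where
  carrier := {p | ∃ x ∈ V K (M K N) s,
    (x : Matrix (Fin (N + 1)) (Fin (N + 1)) (MvPolynomial ℕ K)) = Matrix.single i j p}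
  zero_mem' := ⟨0, Submodule.zero_mem _, by rw [Matrix.single_zero]; rfl⟩
  add_mem' := by
    rintro p q ⟨x, hx, hx'⟩ ⟨y, hy, hy'⟩
    refine ⟨x + y, add_mem hx hy, ?_⟩
    rw [Matrix.single_add, ← hx', ← hy']
    rfl
  smul_mem' := by
    rintro c p ⟨x, hx, hx'⟩
    refine ⟨c • x, Submodule.smul_mem _ _ hx, ?_⟩
    rw [← Matrix.smul_single, ← hx']
    rfl

lemma P_le_T (s : Br) (hs : s ≠ leaf) : ∀ i j : Fin (N + 1), j.val = i.val + s.cherries →
    P K s i.val ≤ T s i j := by
  induction s with
  | leaf => exact absurd rfl hs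
  | node l r hl hr =>
    intro i j hij
    by_cases h1 : l = leaf
    · subst h1
      by_cases h2 : r = leaf
      · subst h2
        rw [ch_ll] at hij
        rw [P_ll]
        rintro _ ⟨q, hq, rfl⟩
        refine ⟨-⁅(dg : M K N), (⟨Matrix.single i j q, sg_mem i j (by omega) q (by rw [hij]; exact hq)⟩ : M K N)⁆,
          neg_mem (lie_mem_V K Submodule.mem_top Submodule.mem_top), ?_⟩
        have e := dg_single i j q
        have e2 : w K i.val j.val = w K i.val (i.val + 1) := by rw [hij]
        rw [e2] at e
        rw [LinearMap.mulLeft_apply]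
        exact e
      · rw [ch_ln r h2] at hij
        rw [P_ln K r h2]
        rintro _ ⟨q, hq, rfl⟩
        obtain ⟨y, hy, hy'⟩ := hr h2 i j hij hq
        refine ⟨-⁅(dg : M K N), y⁆, neg_mem (lie_mem_V K Submodule.mem_top hy), ?_⟩
        rw [LinearMap.mulLeft_apply, ← hij]
        have := dg_single i j q
        rw [← hy'] at this
        exact this
    · by_cases h2 : r = leaf
      · subst h2
        rw [ch_nl l h1] at hij
        rw [P_nl K l h1]
        rintro _ ⟨q, hq, rfl⟩
        obtain ⟨y, hy, hy'⟩ := hl h1 i j hij hq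
        refine ⟨⁅y, (dg : M K N)⁆, lie_mem_V K hy Submodule.mem_top, ?_⟩
        rw [LinearMap.mulLeft_apply, ← hij, ← lie_skew]
        have := dg_single i j q
        rw [← hy'] at this
        exact this
      · rw [ch_nn l r h1 h2] at hij
        rw [P_nn K l r h1 h2]
        have hj := j.2
        refine sup_le ?_ ?_
        · rw [Submodule.mul_le]
          intro p hp q hq
          obtain ⟨x, hx, hx'⟩ := hl h1 i ⟨i.val + l.cherries, by omega⟩ rfl hp
          obtain ⟨y, hy, hy'⟩ := hr h2 ⟨i.val + l.cherries, by omega⟩ j (by simp only; omega) hq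
          refine ⟨⁅x, y⁆, lie_mem_V K hx hy, ?_⟩
          have c1 := ch_pos l h1
          have c2 := ch_pos r h2
          rw [LieSubalgebra.coe_bracket, hx', hy', Ring.lie_def, Matrix.single_mul_single_same,
            Matrix.single_mul_single_of_ne, sub_zero]
          intro h0
          rw [h0] at hij
          omega
        · rw [Submodule.mul_le]
          intro p hp q hq
          obtain ⟨y, hy, hy'⟩ := hr h2 i ⟨i.val + r.cherries, by omega⟩ rfl hp
          obtain ⟨x, hx, hx'⟩ := hl h1 ⟨i.val + r.cherries, by omega⟩ j (by simp only; omega) hq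
          refine ⟨-⁅x, y⁆, neg_mem (lie_mem_V K hx hy), ?_⟩
          have c1 := ch_pos l h1
          have c2 := ch_pos r h2
          rw [lie_skew, LieSubalgebra.coe_bracket, hx', hy', Ring.lie_def,
            Matrix.single_mul_single_same, Matrix.single_mul_single_of_ne, sub_zero]
          intro h0
          rw [h0] at hij
          omega

lemma P_le_of_V (s t : Br) (hs : s ≠ leaf) (ht : t ≠ leaf) (hc : s.cherries = t.cherries)
    (h : V K (M K s.cherries) s = V K (M K s.cherries) t) : P K s 0 ≤ P K t 0 := by
  intro p hp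
  obtain ⟨x, hx, hx'⟩ := P_le_T (N := s.cherries) s hs ⟨0, by omega⟩ ⟨s.cherries, by omega⟩
    (by simp) hp
  rw [h] at hx
  have := (V_entry t ht x hx ⟨0, by omega⟩ ⟨s.cherries, by omega⟩).2 (by simp [hc])
  rw [hx', Matrix.single_apply_same] at this
  exact this

theorem P_eq (s t : Br) (hs : s ≠ leaf) (ht : t ≠ leaf) (hc : s.cherries = t.cherries)
    (h : EquivId K s t) : P K s 0 = P K t 0 := by
  apply le_antisymm
  · exact P_le_of_V s t hs ht hc (V_eq K _ s t h)
  · exact P_le_of_V t s ht hs hc.symm (V_eq K _ s t h).symm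

/-! ### shifts -/

lemma sh_w (i j m : ℕ) (h : i ≤ j) : sh m (w K i j) = w K (i + m) (j + m) := by
  rw [w_eq K h, w_eq K (by omega), map_sum, ← Finset.sum_Ico_add']
  refine Finset.sum_congr rfl (fun k _ => ?_)
  simp [sh]

lemma sh_supp (i j m : ℕ) : (supp K i j).map (sh m).toLinearMap = supp K (i + m) (j + m) := by
  unfold supp supported sh
  have h : (Algebra.adjoin K (X '' Set.Ico (i + m) (j + m)) : Subalgebra K (MvPolynomial ℕ K)) =
      (Algebra.adjoin K (X '' Set.Ico i j)).map (rename (· + m)) := by
    rw [AlgHom.map_adjoin, Set.image_image]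
    congr 1
    have : (fun x : ℕ => (rename (· + m) (X x : MvPolynomial ℕ K) : MvPolynomial ℕ K)) =
        X ∘ (· + m) := by
      funext x; simp
    rw [this, Set.image_comp, Set.image_add_const_Ico]
  rw [h]
  rfl

lemma P_sh (s : Br) (hs : s ≠ leaf) (m : ℕ) : ∀ i,
    (P K s i).map (sh m).toLinearMap = P K s (i + m) := by
  have key : ∀ (S : Submodule K (MvPolynomial ℕ K)) (a b : ℕ), a ≤ b →
      (S.map (LinearMap.mulLeft K (w K a b))).map (sh m).toLinearMap =
        (S.map (sh m).toLinearMap).map (LinearMap.mulLeft K (w K (a + m) (b + m))) := by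
    intro S a b hab
    rw [← Submodule.map_comp, ← Submodule.map_comp]
    congr 1
    ext1
    ext
    · simp [sh_w a b m hab]
  induction s with
  | leaf => exact absurd rfl hs
  | node l r hl hr =>
    intro i
    by_cases h1 : l = leaf
    · subst h1
      by_cases h2 : r = leaf
      · subst h2
        rw [P_ll, P_ll, key _ _ _ (by omega), sh_supp]
        rw [add_right_comm]
      · rw [P_ln K r h2, P_ln K r h2, key _ _ _ (by omega), hr h2]
        rw [add_right_comm]
    · by_cases h2 : r = leaf
      · subst h2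
        rw [P_nl K l h1, P_nl K l h1, key _ _ _ (by omega), hl h1]
        rw [add_right_comm]
      · rw [P_nn K l r h1 h2, P_nn K l r h1 h2, Submodule.map_sup, Submodule.map_mul,
          Submodule.map_mul, hl h1, hl h1, hr h2, hr h2]
        rw [add_right_comm i l.cherries m, add_right_comm i r.cherries m]

lemma P_ne (s : Br) (hs : s ≠ leaf) : ∀ i, P K s i ≠ ⊥ := by
  have hw : ∀ i c, 1 ≤ c → w K i (i + c) ≠ 0 := by
    intro i c hc h
    rw [w_eq K (by omega)] at h
    have := congrArg (fun p => eval (fun k => if k = i then (1 : K) else 0) p) h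
    simp only [map_sum, eval_X, map_zero] at this
    rw [Finset.sum_eq_single i] at this
    · simp at this
    · intro b _ hb; simp [hb]
    · intro h0; exact absurd (Finset.mem_Ico.2 ⟨le_rfl, by omega⟩) h0
  have key : ∀ (S : Submodule K (MvPolynomial ℕ K)) (a b : ℕ), 1 ≤ b → S ≠ ⊥ →
      S.map (LinearMap.mulLeft K (w K a (a + b))) ≠ ⊥ := by
    intro S a b hb hS h
    obtain ⟨p, hp, h0⟩ := Submodule.exists_mem_ne_zero_of_ne_bot hS
    have : LinearMap.mulLeft K (w K a (a + b)) p ∈ S.map (LinearMap.mulLeft K (w K a (a + b))) :=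
      ⟨p, hp, rfl⟩
    rw [h, Submodule.mem_bot, LinearMap.mulLeft_apply] at this
    exact mul_ne_zero (hw a b hb) h0 this
  induction s with
  | leaf => exact absurd rfl hs
  | node l r hl hr =>
    intro i
    by_cases h1 : l = leaf
    · subst h1
      by_cases h2 : r = leaf
      · subst h2
        rw [P_ll]
        refine key _ _ _ le_rfl (fun h => ?_)
        have : (1 : MvPolynomial ℕ K) ∈ supp K i (i + 1) := by
          unfold supp
          rw [Subalgebra.mem_toSubmodule]
          exact one_mem _
        rw [h, Submodule.mem_bot] at this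
        exact one_ne_zero this
      · rw [P_ln K r h2]
        exact key _ _ _ (ch_pos r h2) (hr h2 i)
    · by_cases h2 : r = leaf
      · subst h2
        rw [P_nl K l h1]
        exact key _ _ _ (ch_pos l h1) (hl h1 i)
      · rw [P_nn K l r h1 h2]
        intro h
        obtain ⟨p, hp, hp0⟩ := Submodule.exists_mem_ne_zero_of_ne_bot (hl h1 i)
        obtain ⟨q, hq, hq0⟩ := Submodule.exists_mem_ne_zero_of_ne_bot (hr h2 (i + l.cherries))
        have : p * q ∈ (⊥ : Submodule K (MvPolynomial ℕ K)) := by
          rw [← h]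
          exact Submodule.mem_sup_left (Submodule.mul_mem_mul hp hq)
        rw [Submodule.mem_bot] at this
        exact mul_ne_zero hp0 hq0 this

end Pool.Agent.R252.BahN
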