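import Mathlib
import Pool.Agent.Results.MP_5ecbac_al.Skeleton

set_option linter.all false

universe u

namespace Pool.Agent.R252.BahS

open Pool.Agent.Results.MP_5ecbac_al
open ThreeCherries ThreeCherries.Br Skeleton

/-- isomorphism of unordered trees, by recursion -/
def Same : Br → Br → Prop
  | leaf, leaf => True
  | leaf, node _ _ => False
  | node _ _, leaf => False
  | node a b, node c d => (Same a c ∧ Same b d) ∨ (Same a d ∧ Same b c)

lemma same_refl (a : Br) : Same a a := by
  induction a with
  | leaf => trivial
  | node l r hl hr => exact Or.inl ⟨hl, hr⟩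

lemma same_symm : ∀ a b : Br, Same a b → Same b a := by
  intro a
  induction a with
  | leaf => intro b; cases b <;> exact id
  | node l r hl hr =>
    intro b
    cases b with
    | leaf => exact id
    | node c d =>
      rintro (⟨h1, h2⟩ | ⟨h1, h2⟩)
      · exact Or.inl ⟨hl _ h1, hr _ h2⟩
      · exact Or.inr ⟨hr _ h2, hl _ h1⟩

lemma same_trans : ∀ a b c : Br, Same a b → Same b c → Same a c := by
  intro a
  induction a with
  | leaf =>
    intro b c
    cases b with
    | leaf => intro _ h; exact h
    | node x y => intro h; exact absurd h id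
  | node l r hl hr =>
    intro b c
    cases b with
    | leaf => intro h; exact absurd h id
    | node x y =>
      cases c with
      | leaf => intro _ h; exact absurd h id
      | node z t =>
        rintro (⟨h1, h2⟩ | ⟨h1, h2⟩) (⟨h3, h4⟩ | ⟨h3, h4⟩)
        · exact Or.inl ⟨hl _ _ h1 h3, hr _ _ h2 h4⟩
        · exact Or.inr ⟨hl _ _ h1 h3, hr _ _ h2 h4⟩
        · exact Or.inr ⟨hl _ _ h1 h4, hr _ _ h2 h3⟩
        · exact Or.inl ⟨hl _ _ h1 h4, hr _ _ h2 h3⟩

lemma same_of_CEq {a b : Br} (h : CEq a b) : Same a b := by
  induction h with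
  | refl s => exact same_refl s
  | symm _ ih => exact same_symm _ _ ih
  | trans _ _ ih1 ih2 => exact same_trans _ _ _ ih1 ih2
  | comm s t => exact Or.inr ⟨same_refl s, same_refl t⟩
  | congr _ _ ih1 ih2 => exact Or.inl ⟨ih1, ih2⟩

lemma CEq_of_same : ∀ a b : Br, Same a b → CEq a b := by
  intro a
  induction a with
  | leaf =>
    intro b
    cases b with
    | leaf => intro _; exact CEq.refl _
    | node x y => intro h; exact absurd h id
  | node l r hl hr =>
    intro b
    cases b with
    | leaf => intro h; exact absurd h id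
    | node x y =>
      rintro (⟨h1, h2⟩ | ⟨h1, h2⟩)
      · exact CEq.congr (hl _ h1) (hr _ h2)
      · exact (CEq.congr (hl _ h1) (hr _ h2)).trans (CEq.comm _ _)

lemma CEq_inv {a b c d : Br} (h : CEq (node a b) (node c d)) :
    (CEq a c ∧ CEq b d) ∨ (CEq a d ∧ CEq b c) := by
  rcases same_of_CEq h with ⟨h1, h2⟩ | ⟨h1, h2⟩
  · exact Or.inl ⟨CEq_of_same _ _ h1, CEq_of_same _ _ h2⟩
  · exact Or.inr ⟨CEq_of_same _ _ h1, CEq_of_same _ _ h2⟩

/-- perfect trees -/
def perf : ℕ → Br
  | 0 => leaf
  | h + 1 => node (perf h) (perf h)

lemma deg_perf (h : ℕ) : (perf h).deg = 2 ^ h := by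
  induction h with
  | zero => rfl
  | succ h ih => simp only [perf, deg, ih]; ring

lemma dbl_perf (h : ℕ) : dbl (perf h) = perf (h + 1) := by
  induction h with
  | zero => rfl
  | succ h ih =>
    show dbl (node (perf h) (perf h)) = _
    rw [dbl, ih]
    rfl

lemma ch_sk (s : Br) (hs : s ≠ leaf) : (sk s).deg = s.cherries := by
  induction s with
  | leaf => exact absurd rfl hs
  | node l r hl hr =>
    cases l with
    | leaf =>
      cases r with
      | leaf => rfl
      | node a b => rw [sk, hr (by simp)]; simp [cherries]
    | node a b =>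
      cases r with
      | leaf => rw [sk, hl (by simp)]; simp [cherries]
      | node c d => rw [sk, deg, hl (by simp), hr (by simp)]; simp [cherries]

lemma CEq_hang {s t : Br} (h : CEq s t) (k : ℕ) : CEq (hang s k) (hang t k) := by
  induction k with
  | zero => exact h
  | succ k ih => exact CEq.congr ih (CEq.refl _)

lemma leaf_ne_node_CEq {a b : Br} (h : CEq leaf (node a b)) : False := same_of_CEq h

lemma good_perf (K : Type u) [Field K] (h : ℕ) : Good K (perf h) := by
  induction h with
  | zero =>
    intro t ht
    have := deg_eq K _ _ ht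
    cases t with
    | leaf => exact CEq.refl _
    | node a b =>
      have h1 := ThreeCherries.deg_pos a
      have h2 := ThreeCherries.deg_pos b
      simp only [perf, deg] at this
      omega
  | succ h ih => rw [← dbl_perf]; exact good_dbl K _ ih

/-- every node with two non-leaf children has children with equally many cherries -/
def Balanced : Br → Prop
  | leaf => True
  | node l r => Balanced l ∧ Balanced r ∧ (l = leaf ∨ r = leaf ∨ l.cherries = r.cherries)

lemma balanced_perf (s : Br) (hs : s ≠ leaf) (hb : Balanced s) : ∃ h, CEq (sk s) (perf h) := by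
  induction s with
  | leaf => exact absurd rfl hs
  | node l r hl hr =>
    obtain ⟨b1, b2, b3⟩ := hb
    by_cases h1 : l = leaf
    · by_cases h2 : r = leaf
      · subst h1 h2
        exact ⟨0, CEq.refl _⟩
      · subst h1
        rw [sk_lnode r h2]
        exact hr h2 b2
    · by_cases h2 : r = leaf
      · subst h2
        rw [sk_noder l h1]
        exact hl h1 b1
      · rw [sk_node l r h1 h2]
        obtain ⟨x, hx⟩ := hl h1 b1
        obtain ⟨y, hy⟩ := hr h2 b2
        have e := (b3.resolve_left h1).resolve_left h2
        rw [← ch_sk l h1, ← ch_sk r h2, hx.deg_eq, hy.deg_eq, deg_perf, deg_perf] at e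
        have exy : x = y := Nat.pow_right_injective le_rfl e
        subst exy
        exact ⟨x + 1, CEq.congr hx hy⟩

end Pool.Agent.R252.BahS
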