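import Mathlib

/-!
Symmetry of the higher derivatives of a smooth function (for every order, not only for analytic
functions).
-/

set_option autoImplicit false

open Set Equiv
open scoped ContDiff

namespace Pool.Agent.R252

variable {E F : Type*} [NormedAddCommGroup E] [NormedSpace ℝ E]
  [NormedAddCommGroup F] [NormedSpace ℝ F]

/-- Invariance under an adjacent transposition. -/
lemma iteratedFDeriv_comp_adj {f : E → F} (hf : ContDiff ℝ ∞ f) :
    ∀ (n : ℕ) (i : Fin n) (x : E) (v : Fin (n + 1) → E),
      iteratedFDeriv ℝ (n + 1) f x (v ∘ swap i.castSucc i.succ)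
        = iteratedFDeriv ℝ (n + 1) f x v := by
  intro n
  induction n with
  | zero => intro i; exact i.elim0
  | succ n ih =>
    intro i
    refine Fin.cases ?_ ?_ i
    · intro x v
      have hg : ContDiff ℝ ∞ (iteratedFDeriv ℝ n f) := by
        apply hf.iteratedFDeriv_right
        norm_cast
      have hdiff : ∀ y, DifferentiableAt ℝ (fderiv ℝ (iteratedFDeriv ℝ n f)) y := by
        intro y
        exact ((hg.fderiv_right (m := ∞) (by simp)).differentiable (by simp)) y
      have key : ∀ u : Fin (n + 2) → E, iteratedFDeriv ℝ (n + 1 + 1) f x u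
          = fderiv ℝ (fderiv ℝ (iteratedFDeriv ℝ n f)) x (u 0) (u 1) (Fin.tail (Fin.tail u)) := by
        intro u
        have hfd : DifferentiableAt ℝ (iteratedFDeriv ℝ (n + 1) f) x := by
          have hg : ContDiff ℝ ∞ (iteratedFDeriv ℝ (n + 1) f) := by
            apply hf.iteratedFDeriv_right
            norm_cast
          exact (hg.differentiable (by simp)) x
        rw [iteratedFDeriv_succ_apply_left]
        have h0 := (hfd.hasFDerivAt.continuousMultilinear_apply_const (Fin.tail u)).fderiv
        have h1 : fderiv ℝ (iteratedFDeriv ℝ (n + 1) f) x (u 0) (Fin.tail u)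
            = fderiv ℝ (fun y => iteratedFDeriv ℝ (n + 1) f y (Fin.tail u)) x (u 0) := by
          rw [h0]; rfl
        rw [h1]
        have h2 : (fun y => iteratedFDeriv ℝ (n + 1) f y (Fin.tail u))
            = fun y => fderiv ℝ (iteratedFDeriv ℝ n f) y (u 1) (Fin.tail (Fin.tail u)) := by
          funext y
          rw [iteratedFDeriv_succ_apply_left]
          rfl
        rw [h2]
        have h3 := (hdiff x).hasFDerivAt.clm_apply (hasFDerivAt_const (u 1) x)
        have h4 := (h3.continuousMultilinear_apply_const (Fin.tail (Fin.tail u))).fderiv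
        rw [h4]
        simp
      rw [key, key]
      have hs : IsSymmSndFDerivAt ℝ (iteratedFDeriv ℝ n f) x :=
        hg.contDiffAt.isSymmSndFDerivAt (by
          rw [minSmoothness_of_isRCLikeNormedField]; exact WithTop.coe_le_coe.2 le_top)
      rw [hs.eq]
      have e0 : (v ∘ swap (Fin.castSucc (0 : Fin (n + 1))) (Fin.succ 0)) 1 = v 0 := by
        simp
      have e1 : (v ∘ swap (Fin.castSucc (0 : Fin (n + 1))) (Fin.succ 0)) 0 = v 1 := by
        simp
      rw [e0, e1]
      congr 1
    · intro j x v
      have hfd : DifferentiableAt ℝ (iteratedFDeriv ℝ (n + 1) f) x := by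
        have hg : ContDiff ℝ ∞ (iteratedFDeriv ℝ (n + 1) f) := by
          apply hf.iteratedFDeriv_right
          norm_cast
        exact (hg.differentiable (by simp)) x
      have key : ∀ u : Fin (n + 2) → E, iteratedFDeriv ℝ (n + 1 + 1) f x u
          = fderiv ℝ (fun y => iteratedFDeriv ℝ (n + 1) f y (Fin.tail u)) x (u 0) := by
        intro u
        rw [iteratedFDeriv_succ_apply_left]
        have := (hfd.hasFDerivAt.continuousMultilinear_apply_const (Fin.tail u)).fderiv
        rw [this]
        rfl
      rw [key, key]
      have e0 : (v ∘ swap (Fin.castSucc (Fin.succ j)) (Fin.succ (Fin.succ j))) 0 = v 0 := by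
        simp only [Function.comp]
        congr 1
      have e1 : Fin.tail (v ∘ swap (Fin.castSucc (Fin.succ j)) (Fin.succ (Fin.succ j)))
          = (Fin.tail v) ∘ swap (Fin.castSucc j) (Fin.succ j) := by
        funext l
        simp only [Fin.tail, Function.comp]
        congr 1
        by_cases h1 : l = Fin.castSucc j
        · rw [h1, swap_apply_left, show (Fin.castSucc j).succ = (Fin.succ j).castSucc from rfl,
            swap_apply_left]
        · by_cases h2 : l = Fin.succ j
          · rw [h2, swap_apply_right, swap_apply_right]; rfl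
          · rw [swap_apply_of_ne_of_ne h1 h2, swap_apply_of_ne_of_ne]
            · intro h; apply h1; exact Fin.succ_injective _ h
            · intro h; apply h2; exact Fin.succ_injective _ h
      rw [e0, e1]
      congr 2
      funext y
      exact ih j y (Fin.tail v)

/-- The `n`-th derivative of a smooth function is symmetric. -/
theorem iteratedFDeriv_comp_perm_smooth {f : E → F} (hf : ContDiff ℝ ∞ f) {n : ℕ}
    (σ : Perm (Fin n)) (x : E) (v : Fin n → E) :
    iteratedFDeriv ℝ n f x (v ∘ σ) = iteratedFDeriv ℝ n f x v := by
  cases n with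
  | zero =>
    congr 1
    funext i; exact i.elim0
  | succ n =>
    have hσ : σ ∈ Submonoid.closure (Set.range fun i : Fin n => swap i.castSucc i.succ) := by
      rw [Equiv.Perm.mclosure_swap_castSucc_succ]; trivial
    induction hσ using Submonoid.closure_induction generalizing v with
    | mem τ h =>
      obtain ⟨i, rfl⟩ := h
      exact iteratedFDeriv_comp_adj hf n i x v
    | one => rfl
    | mul a b _ _ iha ihb =>
      have : v ∘ (a * b : Perm (Fin (n + 1))) = (v ∘ a) ∘ b := rfl
      rw [this, ihb, iha]

end Pool.Agent.R252
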