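import Mathlib

/-!
Coefficient inequalities for functions of positive real part (Carathéodory functions).
-/

set_option autoImplicit false

open Complex MeasureTheory Set Metric Filter Topology
open scoped Real ComplexConjugate Interval

namespace Pool.Agent.R252.Cara

/-- The Taylor coefficient of order `k` at the origin. -/
noncomputable def coeff (P : ℂ → ℂ) (k : ℕ) : ℂ := iteratedDeriv k P 0 / (k.factorial : ℂ)

variable {P : ℂ → ℂ}

lemma integral_neg {r : ℝ} (h0 : 0 < r) (hd : DiffContOnCl ℂ P (ball 0 r)) (k : ℕ) :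
    ∫ t in (0 : ℝ)..2 * π, P (circleMap 0 r t) * exp (-(k * t * I)) = 2 * π * (r ^ k * coeff P k) := by
  have h1 := hd.circleIntegral_one_div_sub_center_pow_smul h0 k
  have hr : (r : ℂ) ≠ 0 := by exact_mod_cast h0.ne'
  rw [circleIntegral] at h1
  have h2 : ∀ t : ℝ, deriv (circleMap 0 r) t • ((1 / (circleMap 0 r t - 0) ^ (k + 1)) •
      P (circleMap 0 r t)) = (I / r ^ k) * (P (circleMap 0 r t) * exp (-(k * t * I))) := by
    intro t
    rw [deriv_circleMap, sub_zero, smul_eq_mul, smul_eq_mul]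
    have h3 : circleMap 0 r t = r * exp (t * I) := by simp [circleMap]
    have h4 : circleMap 0 r t ≠ 0 := by
      rw [h3]; exact mul_ne_zero hr (exp_ne_zero _)
    have h5 : exp (-(k * t * I)) = r ^ k / (circleMap 0 r t) ^ k := by
      rw [h3, mul_pow, ← Complex.exp_nat_mul, Complex.exp_neg]
      have h6 : (exp (k * (t * I))) ≠ 0 := exp_ne_zero _
      have h7 : (r : ℂ) ^ k ≠ 0 := pow_ne_zero _ hr
      rw [show (k : ℂ) * t * I = k * (t * I) by ring]
      field_simp
    rw [h5]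
    have h7 : (r : ℂ) ^ k ≠ 0 := pow_ne_zero _ hr
    field_simp
    ring
  simp_rw [h2] at h1
  rw [intervalIntegral.integral_const_mul, smul_eq_mul] at h1
  have h7 : (r : ℂ) ^ k ≠ 0 := pow_ne_zero _ hr
  have h8 : (k.factorial : ℂ) ≠ 0 := by exact_mod_cast k.factorial_ne_zero
  unfold coeff
  have hI := I_ne_zero
  field_simp at h1 ⊢
  linear_combination h1

lemma integral_pos {r : ℝ} (h0 : 0 < r) (hd : DiffContOnCl ℂ P (ball 0 r)) (k : ℕ)
    (hk : 0 < k) :
    ∫ t in (0 : ℝ)..2 * π, P (circleMap 0 r t) * exp (k * t * I) = 0 := by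
  obtain ⟨l, rfl⟩ : ∃ l, k = l + 1 := ⟨k - 1, by omega⟩
  have hd2 : DiffContOnCl ℂ (fun z => z ^ l * P z) (ball 0 r) :=
    ((differentiable_id.pow l).diffContOnCl).smul hd
  have h1 := hd2.circleIntegral_eq_zero h0.le
  have hr : (r : ℂ) ≠ 0 := by exact_mod_cast h0.ne'
  rw [circleIntegral] at h1
  have h2 : ∀ t : ℝ, deriv (circleMap 0 r) t • ((circleMap 0 r t) ^ l * P (circleMap 0 r t))
      = (I * r ^ (l + 1)) * (P (circleMap 0 r t) * exp (((l + 1 : ℕ) : ℂ) * t * I)) := by
    intro t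
    rw [deriv_circleMap, smul_eq_mul]
    have h3 : circleMap 0 r t = r * exp (t * I) := by simp [circleMap]
    have h5 : exp (((l + 1 : ℕ) : ℂ) * t * I) = exp (t * I) ^ (l + 1) := by
      rw [← Complex.exp_nat_mul]; congr 1; ring
    rw [h5]
    rw [h3]
    ring
  simp_rw [h2] at h1
  rw [intervalIntegral.integral_const_mul] at h1
  have h7 : I * (r : ℂ) ^ (l + 1) ≠ 0 := mul_ne_zero I_ne_zero (pow_ne_zero _ hr)
  exact (mul_eq_zero.1 h1).resolve_left h7

lemma cont_comp {r : ℝ} (h0 : 0 < r) (hd : DiffContOnCl ℂ P (ball 0 r)) :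
    Continuous (fun t : ℝ => P (circleMap 0 r t)) := by
  have h1 : ContinuousOn P (closedBall 0 r) := hd.continuousOn_ball
  apply h1.comp_continuous (continuous_circleMap 0 r)
  intro t
  exact circleMap_mem_closedBall 0 h0.le t

/-- The moments of the measure `Re P(r e^{it}) dt / 2π`. -/
lemma moment {r : ℝ} (h0 : 0 < r) (hd : DiffContOnCl ℂ P (ball 0 r)) (k : ℕ) (hk : 0 < k) :
    ∫ t in (0 : ℝ)..2 * π, ((P (circleMap 0 r t)).re : ℂ) * exp (-(k * t * I))
      = 2 * π * (r ^ k * (coeff P k / 2)) := by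
  have hc := cont_comp h0 hd
  have h1 := integral_neg h0 hd k
  have h2 := integral_pos h0 hd k hk
  have h3 : ∫ t in (0 : ℝ)..2 * π, conj (P (circleMap 0 r t)) * exp (-(k * t * I)) = 0 := by
    have h4 : ∀ t : ℝ, conj (P (circleMap 0 r t)) * exp (-(k * t * I))
        = conj (P (circleMap 0 r t) * exp (k * t * I)) := by
      intro t
      rw [map_mul, ← Complex.exp_conj]
      congr 2
      simp
    simp_rw [h4]
    rw [intervalIntegral.integral_of_le (by positivity), integral_conj,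
      ← intervalIntegral.integral_of_le (by positivity), h2, map_zero]
  have h5 : ∀ t : ℝ, ((P (circleMap 0 r t)).re : ℂ) * exp (-(k * t * I))
      = (1 / 2) * (P (circleMap 0 r t) * exp (-(k * t * I))
        + conj (P (circleMap 0 r t)) * exp (-(k * t * I))) := by
    intro t
    rw [← add_mul, Complex.add_conj]
    push_cast
    ring
  simp_rw [h5]
  have hexp : Continuous (fun t : ℝ => exp (-(k * t * I))) := by fun_prop
  have hc' : Continuous (fun t : ℝ => conj (P (circleMap 0 r t))) := continuous_conj.comp hc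
  have i1 : IntervalIntegrable (fun t : ℝ => P (circleMap 0 r t) * exp (-(k * t * I)))
      volume 0 (2 * π) := (hc.mul hexp).intervalIntegrable _ _
  have i2 : IntervalIntegrable (fun t : ℝ => conj (P (circleMap 0 r t)) * exp (-(k * t * I)))
      volume 0 (2 * π) := (hc'.mul hexp).intervalIntegrable _ _
  rw [intervalIntegral.integral_const_mul, intervalIntegral.integral_add i1 i2, h1, h3]
  ring

lemma mass {r : ℝ} (h0 : 0 < r) (hd : DiffContOnCl ℂ P (ball 0 r)) (hP : P 0 = 1) :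
    ∫ t in (0 : ℝ)..2 * π, (P (circleMap 0 r t)).re = 2 * π := by
  have hc := cont_comp h0 hd
  have h1 := integral_neg h0 hd 0
  simp only [Nat.cast_zero, zero_mul, neg_zero, Complex.exp_zero, mul_one, pow_zero,
    coeff, iteratedDeriv_zero, Nat.factorial_zero, Nat.cast_one, div_one, hP] at h1
  have h2 : (∫ t in (0 : ℝ)..2 * π, P (circleMap 0 r t)).re
      = ∫ t in (0 : ℝ)..2 * π, (P (circleMap 0 r t)).re := by
    have h3 := (Complex.reCLM).intervalIntegral_comp_comm (hc.intervalIntegrable (0 : ℝ) (2 * π))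
      (μ := volume)
    simpa using h3.symm
  rw [← h2, h1]
  simp

/-- The inequalities for a fixed radius. -/
lemma ineq_radius {r : ℝ} (h0 : 0 < r) (hd : DiffContOnCl ℂ P (ball 0 r)) (hP : P 0 = 1)
    (hre : ∀ t : ℝ, 0 ≤ (P (circleMap 0 r t)).re) :
    (∀ k : ℕ, 0 < k → ‖(r : ℂ) ^ k * (coeff P k / 2)‖ ≤ 1) ∧
      ‖(r : ℂ) ^ 2 * (coeff P 2 / 2) - (r * (coeff P 1 / 2)) ^ 2‖
        ≤ 1 - ‖(r : ℂ) * (coeff P 1 / 2)‖ ^ 2 := by
  have hc := cont_comp h0 hd
  have hcr : Continuous (fun t : ℝ => (P (circleMap 0 r t)).re) := continuous_re.comp hc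
  have hm := mass h0 hd hP
  have hpi : (0 : ℝ) < 2 * π := by positivity
  have hpic : (2 * π : ℂ) ≠ 0 := by exact_mod_cast hpi.ne'
  have hn : ‖(2 * π : ℂ)‖ = 2 * π := by
    rw [show (2 * π : ℂ) = ((2 * π : ℝ) : ℂ) by push_cast; ring, Complex.norm_real,
      Real.norm_of_nonneg hpi.le]
  constructor
  · intro k hk
    have h1 := moment h0 hd k hk
    have h2 : ‖∫ t in (0 : ℝ)..2 * π, ((P (circleMap 0 r t)).re : ℂ) * exp (-(k * t * I))‖
        ≤ ∫ t in (0 : ℝ)..2 * π, (P (circleMap 0 r t)).re := by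
      refine intervalIntegral.norm_integral_le_of_norm_le hpi.le ?_ (hcr.intervalIntegrable _ _)
      refine Eventually.of_forall fun t _ => ?_
      rw [norm_mul, Complex.norm_real, Real.norm_of_nonneg (hre t)]
      have : ‖exp (-(k * t * I))‖ = 1 := by
        rw [show -((k : ℂ) * t * I) = ((-(k * t) : ℝ) : ℂ) * I by push_cast; ring,
          Complex.norm_exp_ofReal_mul_I]
      rw [this, mul_one]
    rw [h1, hm, norm_mul, hn] at h2
    nlinarith
  · set m : ℂ := r * (coeff P 1 / 2) with hmdef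
    have e1 := moment h0 hd 1 one_pos
    have e2 := moment h0 hd 2 two_pos
    simp only [Nat.cast_one, one_mul, pow_one, Nat.cast_ofNat] at e1 e2
    set w : ℝ → ℂ := fun t => exp (-(t * I)) with hw
    have hwc : Continuous w := by simp only [hw]; fun_prop
    have hw2 : ∀ t : ℝ, exp (-(2 * t * I)) = w t ^ 2 := by
      intro t
      simp only [hw]
      rw [← Complex.exp_nat_mul]
      congr 1; push_cast; ring
    simp_rw [hw2] at e2
    have hwn : ∀ t, ‖w t‖ = 1 := by
      intro t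
      simp only [hw]
      rw [show -((t : ℂ) * I) = ((-t : ℝ) : ℂ) * I by push_cast; ring,
        Complex.norm_exp_ofReal_mul_I]
    set ρ : ℝ → ℝ := fun t => (P (circleMap 0 r t)).re with hρ
    have hρc : Continuous (fun t => (ρ t : ℂ)) := continuous_ofReal.comp hcr
    have hmc : ∫ t in (0 : ℝ)..2 * π, (ρ t : ℂ) = 2 * π := by
      rw [intervalIntegral.integral_ofReal, hm]; push_cast; ring
    -- the integral of `ρ (w - m)^2`
    have hI : ∫ t in (0 : ℝ)..2 * π, (ρ t : ℂ) * (w t - m) ^ 2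
        = 2 * π * (r ^ 2 * (coeff P 2 / 2) - m ^ 2) := by
      have h1 : ∀ t, (ρ t : ℂ) * (w t - m) ^ 2
          = (ρ t : ℂ) * w t ^ 2 + ((-2 * m) * ((ρ t : ℂ) * w t) + m ^ 2 * (ρ t : ℂ)) := by
        intro t; ring
      simp_rw [h1]
      have i1 : IntervalIntegrable (fun t : ℝ => (ρ t : ℂ) * w t ^ 2) volume 0 (2 * π) :=
        (hρc.mul (hwc.pow 2)).intervalIntegrable _ _
      have i2 : IntervalIntegrable (fun t : ℝ => (-2 * m) * ((ρ t : ℂ) * w t)) volume 0 (2 * π) :=
        (continuous_const.mul (hρc.mul hwc)).intervalIntegrable _ _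
      have i3 : IntervalIntegrable (fun t : ℝ => m ^ 2 * (ρ t : ℂ)) volume 0 (2 * π) :=
        (continuous_const.mul hρc).intervalIntegrable _ _
      rw [intervalIntegral.integral_add i1 (i2.add i3), intervalIntegral.integral_add i2 i3,
        intervalIntegral.integral_const_mul, intervalIntegral.integral_const_mul, e2, hmc]
      have e1' : ∫ t in (0 : ℝ)..2 * π, (ρ t : ℂ) * w t = 2 * π * m := e1
      rw [e1']
      ring
    -- the integral of `ρ |w - m|^2`
    have hJ : ∫ t in (0 : ℝ)..2 * π, ρ t * ‖w t - m‖ ^ 2 = 2 * π * (1 - ‖m‖ ^ 2) := by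
      have h1 : ∀ t, ((ρ t * ‖w t - m‖ ^ 2 : ℝ) : ℂ)
          = (1 + (‖m‖ ^ 2 : ℝ)) * (ρ t : ℂ) + ((-conj m) * ((ρ t : ℂ) * w t)
            + (-m) * conj ((ρ t : ℂ) * w t)) := by
        intro t
        have h2 : ((‖w t - m‖ ^ 2 : ℝ) : ℂ) = (w t - m) * conj (w t - m) := by
          rw [Complex.mul_conj, Complex.normSq_eq_norm_sq]
        have h3 : w t * conj (w t) = 1 := by
          rw [Complex.mul_conj, Complex.normSq_eq_norm_sq, hwn]; norm_num
        have h4 : m * conj m = ((‖m‖ ^ 2 : ℝ) : ℂ) := by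
          rw [Complex.mul_conj, Complex.normSq_eq_norm_sq]
        rw [Complex.ofReal_mul, h2, map_sub, map_mul (starRingEnd ℂ) (ρ t : ℂ) (w t),
          Complex.conj_ofReal, ← h4]
        linear_combination (ρ t : ℂ) * h3
      have h5 : ((∫ t in (0 : ℝ)..2 * π, ρ t * ‖w t - m‖ ^ 2 : ℝ) : ℂ)
          = ((2 * π * (1 - ‖m‖ ^ 2) : ℝ) : ℂ) := by
        rw [← intervalIntegral.integral_ofReal]
        simp_rw [h1]
        have hcc : Continuous (fun t => conj ((ρ t : ℂ) * w t)) :=
          continuous_conj.comp (hρc.mul hwc)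
        have i1 : IntervalIntegrable (fun t : ℝ => (1 + (‖m‖ ^ 2 : ℝ) : ℂ) * (ρ t : ℂ))
            volume 0 (2 * π) := (continuous_const.mul hρc).intervalIntegrable _ _
        have i2 : IntervalIntegrable (fun t : ℝ => (-conj m) * ((ρ t : ℂ) * w t))
            volume 0 (2 * π) := (continuous_const.mul (hρc.mul hwc)).intervalIntegrable _ _
        have i3 : IntervalIntegrable (fun t : ℝ => (-m) * conj ((ρ t : ℂ) * w t))
            volume 0 (2 * π) := (continuous_const.mul hcc).intervalIntegrable _ _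
        rw [intervalIntegral.integral_add i1 (i2.add i3), intervalIntegral.integral_add i2 i3,
          intervalIntegral.integral_const_mul, intervalIntegral.integral_const_mul,
          intervalIntegral.integral_const_mul, hmc]
        have e1' : ∫ t in (0 : ℝ)..2 * π, (ρ t : ℂ) * w t = 2 * π * m := e1
        have e3 : ∫ t in (0 : ℝ)..2 * π, conj ((ρ t : ℂ) * w t) = conj (2 * π * m) := by
          rw [intervalIntegral.integral_of_le (by positivity), integral_conj,
            ← intervalIntegral.integral_of_le (by positivity), e1']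
        have hconj : ∀ x : ℂ, conj (2 * (π : ℂ) * x) = 2 * π * conj x := by
          intro x
          rw [map_mul, map_mul, Complex.conj_ofReal, Complex.conj_ofNat]
        rw [e1', e3, hconj]
        have h4 : m * conj m = ((‖m‖ ^ 2 : ℝ) : ℂ) := by
          rw [Complex.mul_conj, Complex.normSq_eq_norm_sq]
        push_cast at h4 ⊢
        linear_combination (-4 * π : ℂ) * h4
      exact_mod_cast h5
    have hle : ‖∫ t in (0 : ℝ)..2 * π, (ρ t : ℂ) * (w t - m) ^ 2‖
        ≤ ∫ t in (0 : ℝ)..2 * π, ρ t * ‖w t - m‖ ^ 2 := by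
      refine intervalIntegral.norm_integral_le_of_norm_le hpi.le ?_
        ((hcr.mul ((hwc.sub continuous_const).norm.pow 2)).intervalIntegrable _ _)
      refine Eventually.of_forall fun t _ => ?_
      rw [norm_mul, Complex.norm_real, Real.norm_of_nonneg (hre t), norm_pow]
    rw [hI, hJ, norm_mul, hn] at hle
    exact le_of_mul_le_mul_left hle hpi

/-- **Carathéodory inequalities.** -/
theorem caratheodory (hd : DifferentiableOn ℂ P (ball 0 1)) (hP : P 0 = 1)
    (hre : ∀ z ∈ ball (0 : ℂ) 1, 0 ≤ (P z).re) :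
    (∀ k : ℕ, 0 < k → ‖coeff P k / 2‖ ≤ 1) ∧
      ‖coeff P 2 / 2 - (coeff P 1 / 2) ^ 2‖ ≤ 1 - ‖coeff P 1 / 2‖ ^ 2 := by
  have hr : ∀ r : ℝ, r ∈ Ioo (0 : ℝ) 1 → DiffContOnCl ℂ P (ball 0 r) := by
    intro r hr
    apply DifferentiableOn.diffContOnCl
    rw [closure_ball _ hr.1.ne']
    exact hd.mono (closedBall_subset_ball hr.2)
  have hpos : ∀ r : ℝ, r ∈ Ioo (0 : ℝ) 1 → ∀ t : ℝ, 0 ≤ (P (circleMap 0 r t)).re := by
    intro r hr t
    apply hre
    exact closedBall_subset_ball hr.2 (circleMap_mem_closedBall 0 hr.1.le t)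
  have hNe : ∀ᶠ r : ℝ in 𝓝[<] 1, r ∈ Ioo (0 : ℝ) 1 :=
    Ioo_mem_nhdsLT zero_lt_one
  have hlim : Tendsto (fun r : ℝ => (r : ℂ)) (𝓝[<] 1) (𝓝 1) := by
    have := (Complex.continuous_ofReal.tendsto (1 : ℝ))
    rw [Complex.ofReal_one] at this
    exact this.mono_left nhdsWithin_le_nhds
  constructor
  · intro k hk
    have h1 : Tendsto (fun r : ℝ => ‖(r : ℂ) ^ k * (coeff P k / 2)‖) (𝓝[<] 1)
        (𝓝 ‖(1 : ℂ) ^ k * (coeff P k / 2)‖) := ((hlim.pow k).mul_const _).norm
    rw [one_pow, one_mul] at h1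
    refine le_of_tendsto h1 ?_
    filter_upwards [hNe] with r hr'
    exact (ineq_radius hr'.1 (hr r hr') hP (hpos r hr')).1 k hk
  · have h1 : Tendsto (fun r : ℝ => ‖(r : ℂ) ^ 2 * (coeff P 2 / 2) - (r * (coeff P 1 / 2)) ^ 2‖)
        (𝓝[<] 1) (𝓝 ‖(1 : ℂ) ^ 2 * (coeff P 2 / 2) - (1 * (coeff P 1 / 2)) ^ 2‖) :=
      (((hlim.pow 2).mul_const _).sub ((hlim.mul_const _).pow 2)).norm
    have h2 : Tendsto (fun r : ℝ => 1 - ‖(r : ℂ) * (coeff P 1 / 2)‖ ^ 2)
        (𝓝[<] 1) (𝓝 (1 - ‖(1 : ℂ) * (coeff P 1 / 2)‖ ^ 2)) :=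
      ((hlim.mul_const _).norm.pow 2).const_sub 1
    rw [one_pow, one_mul, one_mul] at h1
    rw [one_mul] at h2
    refine le_of_tendsto_of_tendsto h1 h2 ?_
    filter_upwards [hNe] with r hr'
    exact (ineq_radius hr'.1 (hr r hr') hP (hpos r hr')).2

end Pool.Agent.R252.Cara
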