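import Mathlib

/-!
# Descent patterns of permutations: splitting
-/

set_option autoImplicit false

namespace Pool.Agent.R252.DDR

open Finset Equiv

/-- `Ds f j` : there is a descent of the finite sequence `f` at the (0-based) position `j`,
that is `f (j+1) < f j` (in particular `j + 1 < n`). -/
def Ds {n : ℕ} {α : Type*} [LinearOrder α] (f : Fin n → α) (j : ℕ) : Prop :=
  ∃ h : j + 1 < n, f ⟨j + 1, h⟩ < f ⟨j, by omega⟩

theorem Ds_comp {n : ℕ} {α β : Type*} [LinearOrder α] [LinearOrder β] {g : α → β}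
    (hg : StrictMono g) (f : Fin n → α) : Ds (g ∘ f) = Ds f := by
  funext j
  apply propext
  constructor
  · rintro ⟨h, h1⟩
    exact ⟨h, hg.lt_iff_lt.1 h1⟩
  · rintro ⟨h, h1⟩
    exact ⟨h, hg h1⟩

open Classical in
/-- number of permutations whose descent predicate satisfies `Q` -/
noncomputable def cnt (n : ℕ) (Q : (ℕ → Prop) → Prop) : ℕ :=
  (Finset.univ.filter fun w : Perm (Fin n) => Q (Ds w)).card

open Classical in
theorem cnt_inj {n : ℕ} {α : Type*} [LinearOrder α] (f : Fin n → α) (hf : Function.Injective f)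
    (Q : (ℕ → Prop) → Prop) :
    (Finset.univ.filter fun σ : Perm (Fin n) => Q (Ds (f ∘ σ))).card = cnt n Q := by
  unfold cnt
  set π : Perm (Fin n) := Tuple.sort f with hπ
  have hmono : StrictMono (f ∘ π) :=
    (Tuple.monotone_sort f).strictMono_of_injective (hf.comp π.injective)
  have key : ∀ σ : Perm (Fin n), Ds (f ∘ σ) = Ds (π⁻¹ * σ : Perm (Fin n)) := by
    intro σ
    rw [← Ds_comp hmono]
    congr 1
    funext x
    simp [Function.comp]
  refine Finset.card_nbij' (fun σ => π⁻¹ * σ) (fun ρ => π * ρ) ?_ ?_ ?_ ?_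
  · intro σ hσ
    simp only [Finset.coe_filter, Finset.mem_univ, true_and, Set.mem_ofPred_eq] at hσ ⊢
    rw [← key]
    exact hσ
  · intro ρ hρ
    simp only [Finset.coe_filter, Finset.mem_univ, true_and, Set.mem_ofPred_eq] at hρ ⊢
    rw [key]
    simpa using hρ
  · intro σ _
    simp
  · intro ρ _
    simp

/-- the block permutation -/
def th (M K : ℕ) (σ : Perm (Fin M)) (τ : Perm (Fin K)) : Perm (Fin (M + K)) :=
  finSumFinEquiv.permCongr (Equiv.Perm.sumCongr σ τ)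

theorem th_left (M K : ℕ) (σ : Perm (Fin M)) (τ : Perm (Fin K)) (i : Fin M) :
    th M K σ τ (Fin.castAdd K i) = Fin.castAdd K (σ i) := by
  simp [th, Equiv.permCongr_apply]

theorem th_right (M K : ℕ) (σ : Perm (Fin M)) (τ : Perm (Fin K)) (i : Fin K) :
    th M K σ τ (Fin.natAdd M i) = Fin.natAdd M (τ i) := by
  simp [th, Equiv.permCongr_apply]

open Classical in
theorem split_aux (M K : ℕ) (Q1 Q2 : (ℕ → Prop) → Prop) :
    (Finset.univ.filter fun w : Perm (Fin (M + K)) =>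
      Q1 (Ds (w ∘ Fin.castAdd K)) ∧ Q2 (Ds (w ∘ Fin.natAdd M))).card * (M.factorial * K.factorial) =
    (M + K).factorial * (cnt M Q1 * cnt K Q2) := by
  set N := (Finset.univ.filter fun w : Perm (Fin (M + K)) =>
      Q1 (Ds (w ∘ Fin.castAdd K)) ∧ Q2 (Ds (w ∘ Fin.natAdd M))).card with hN
  have h1 : ∀ σ : Perm (Fin M), ∀ τ : Perm (Fin K),
      (∑ w : Perm (Fin (M + K)), if Q1 (Ds ((w ∘ Fin.castAdd K) ∘ σ)) ∧
        Q2 (Ds ((w ∘ Fin.natAdd M) ∘ τ)) then 1 else 0) = N := by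
    intro σ τ
    rw [hN, Finset.card_filter]
    refine Eq.trans ?_ (Equiv.sum_comp (Equiv.mulRight (th M K σ τ)) fun w : Perm (Fin (M + K)) =>
      if Q1 (Ds (w ∘ Fin.castAdd K)) ∧ Q2 (Ds (w ∘ Fin.natAdd M)) then 1 else 0)
    refine Finset.sum_congr rfl fun w _ => ?_
    have e1 : ((w ∘ Fin.castAdd K) ∘ σ : Fin M → Fin (M + K)) =
        ((Equiv.mulRight (th M K σ τ)) w : Perm (Fin (M + K))) ∘ Fin.castAdd K := by
      funext i
      simp [Function.comp, th_left]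
    have e2 : ((w ∘ Fin.natAdd M) ∘ τ : Fin K → Fin (M + K)) =
        ((Equiv.mulRight (th M K σ τ)) w : Perm (Fin (M + K))) ∘ Fin.natAdd M := by
      funext i
      simp [Function.comp, th_right]
    rw [e1, e2]
  have h2 : ∑ σ : Perm (Fin M), ∑ τ : Perm (Fin K),
      (∑ w : Perm (Fin (M + K)), if Q1 (Ds ((w ∘ Fin.castAdd K) ∘ σ)) ∧
        Q2 (Ds ((w ∘ Fin.natAdd M) ∘ τ)) then 1 else 0) = N * (M.factorial * K.factorial) := by
    simp only [h1]
    simp only [Finset.sum_const, Finset.card_univ, Fintype.card_perm, Fintype.card_fin,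
      smul_eq_mul]
    ring
  have h3 : ∑ σ : Perm (Fin M), ∑ τ : Perm (Fin K),
      (∑ w : Perm (Fin (M + K)), if Q1 (Ds ((w ∘ Fin.castAdd K) ∘ σ)) ∧
        Q2 (Ds ((w ∘ Fin.natAdd M) ∘ τ)) then 1 else 0) =
      ∑ w : Perm (Fin (M + K)), (∑ σ : Perm (Fin M), if Q1 (Ds ((w ∘ Fin.castAdd K) ∘ σ)) then 1
        else 0) * (∑ τ : Perm (Fin K), if Q2 (Ds ((w ∘ Fin.natAdd M) ∘ τ)) then 1 else 0) := by
    have e3 : ∀ σ : Perm (Fin M), ∑ τ : Perm (Fin K),
      (∑ w : Perm (Fin (M + K)), if Q1 (Ds ((w ∘ Fin.castAdd K) ∘ σ)) ∧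
        Q2 (Ds ((w ∘ Fin.natAdd M) ∘ τ)) then 1 else 0) = ∑ w : Perm (Fin (M + K)),
        ∑ τ : Perm (Fin K), if Q1 (Ds ((w ∘ Fin.castAdd K) ∘ σ)) ∧
        Q2 (Ds ((w ∘ Fin.natAdd M) ∘ τ)) then 1 else 0 := fun σ => Finset.sum_comm
    simp only [e3]
    rw [Finset.sum_comm]
    refine Finset.sum_congr rfl fun w _ => ?_
    rw [Finset.sum_mul_sum]
    refine Finset.sum_congr rfl fun σ _ => Finset.sum_congr rfl fun τ _ => ?_
    by_cases hA : Q1 (Ds ((w ∘ Fin.castAdd K) ∘ σ)) <;>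
    by_cases hB : Q2 (Ds ((w ∘ Fin.natAdd M) ∘ τ)) <;> simp [hA, hB]
  rw [← h2, h3]
  have h4 : ∀ w : Perm (Fin (M + K)),
      (∑ σ : Perm (Fin M), if Q1 (Ds ((w ∘ Fin.castAdd K) ∘ σ)) then 1
        else 0) * (∑ τ : Perm (Fin K), if Q2 (Ds ((w ∘ Fin.natAdd M) ∘ τ)) then 1 else 0) =
      cnt M Q1 * cnt K Q2 := by
    intro w
    rw [← cnt_inj (w ∘ Fin.castAdd K) (w.injective.comp (Fin.castAdd_injective M K)) Q1,
      ← cnt_inj (w ∘ Fin.natAdd M) (w.injective.comp (Fin.natAdd_injective K M)) Q2,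
      Finset.card_filter, Finset.card_filter]
  simp only [h4]
  simp only [Finset.sum_const, Finset.card_univ, Fintype.card_perm, Fintype.card_fin,
      smul_eq_mul]

/-- restriction of a descent predicate to the first `M` letters -/
def tr (M : ℕ) (P : ℕ → Prop) : ℕ → Prop := fun j => j + 1 < M ∧ P j

/-- shift of a descent predicate -/
def shf (M : ℕ) (P : ℕ → Prop) : ℕ → Prop := fun j => P (M + j)

theorem Ds_left {M K : ℕ} {α : Type*} [LinearOrder α] (f : Fin (M + K) → α) :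
    Ds (f ∘ Fin.castAdd K) = tr M (Ds f) := by
  funext j
  apply propext
  constructor
  · rintro ⟨h, h1⟩
    exact ⟨h, ⟨by omega, h1⟩⟩
  · rintro ⟨h, ⟨h2, h1⟩⟩
    exact ⟨h, h1⟩

theorem Ds_right {M K : ℕ} {α : Type*} [LinearOrder α] (f : Fin (M + K) → α) :
    Ds (f ∘ Fin.natAdd M) = shf M (Ds f) := by
  funext j
  apply propext
  constructor
  · rintro ⟨h, h1⟩
    exact ⟨by omega, h1⟩
  · rintro ⟨h2, h1⟩
    exact ⟨by omega, h1⟩

/-- proportion of the permutations of `n` letters whose descent predicate satisfies `Q` -/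
noncomputable def pr (n : ℕ) (Q : (ℕ → Prop) → Prop) : ℝ := (cnt n Q : ℝ) / n.factorial

theorem pr_split (M K : ℕ) (Q1 Q2 : (ℕ → Prop) → Prop) :
    pr (M + K) (fun P => Q1 (tr M P) ∧ Q2 (shf M P)) = pr M Q1 * pr K Q2 := by
  classical
  have h := split_aux M K Q1 Q2
  have h2 : (Finset.univ.filter fun w : Perm (Fin (M + K)) =>
      Q1 (Ds (w ∘ Fin.castAdd K)) ∧ Q2 (Ds (w ∘ Fin.natAdd M))).card =
      cnt (M + K) (fun P => Q1 (tr M P) ∧ Q2 (shf M P)) := by
    unfold cnt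
    congr 1
    ext w
    simp only [Ds_left, Ds_right, Finset.mem_filter, Finset.mem_univ, true_and]
  rw [h2] at h
  unfold pr
  have h3 : ((cnt (M + K) (fun P => Q1 (tr M P) ∧ Q2 (shf M P)) : ℕ) : ℝ) *
      ((M.factorial : ℝ) * K.factorial) = ((M + K).factorial : ℝ) * (cnt M Q1 * cnt K Q2) := by
    exact_mod_cast h
  have hM : (M.factorial : ℝ) ≠ 0 := by exact_mod_cast M.factorial_ne_zero
  have hK : (K.factorial : ℝ) ≠ 0 := by exact_mod_cast K.factorial_ne_zero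
  have hMK : ((M + K).factorial : ℝ) ≠ 0 := by exact_mod_cast (M + K).factorial_ne_zero
  rw [div_mul_div_comm, div_eq_div_iff hMK (mul_ne_zero hM hK), h3]
  ring

theorem pr_nonneg (n : ℕ) (Q : (ℕ → Prop) → Prop) : 0 ≤ pr n Q := by
  unfold pr
  positivity

theorem pr_mono {n : ℕ} {Q R : (ℕ → Prop) → Prop} (h : ∀ w : Perm (Fin n), Q (Ds w) → R (Ds w)) :
    pr n Q ≤ pr n R := by
  unfold pr cnt
  refine div_le_div_of_nonneg_right ?_ (by positivity)
  exact_mod_cast Finset.card_le_card (fun w hw => by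
    simp only [Finset.mem_filter, Finset.mem_univ, true_and] at hw ⊢
    exact h w hw)

theorem pr_congr {n : ℕ} {Q R : (ℕ → Prop) → Prop} (h : ∀ w : Perm (Fin n), Q (Ds w) ↔ R (Ds w)) :
    pr n Q = pr n R :=
  le_antisymm (pr_mono fun w hw => (h w).1 hw) (pr_mono fun w hw => (h w).2 hw)

theorem pr_zero {n : ℕ} {Q : (ℕ → Prop) → Prop} (h : ∀ w : Perm (Fin n), ¬ Q (Ds w)) :
    pr n Q = 0 := by
  classical
  unfold pr cnt
  rw [Finset.filter_eq_empty_iff.2 (fun w _ => h w)]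
  simp

theorem pr_true (n : ℕ) {Q : (ℕ → Prop) → Prop} (h : ∀ w : Perm (Fin n), Q (Ds w)) :
    pr n Q = 1 := by
  classical
  unfold pr cnt
  rw [Finset.filter_true_of_mem (fun w _ => h w), Finset.card_univ, Fintype.card_perm,
    Fintype.card_fin]
  have : (n.factorial : ℝ) ≠ 0 := by exact_mod_cast n.factorial_ne_zero
  field_simp

/-- disjoint union -/
theorem pr_add {n : ℕ} {Q Q1 Q2 : (ℕ → Prop) → Prop}
    (h : ∀ w : Perm (Fin n), Q (Ds w) ↔ Q1 (Ds w) ∨ Q2 (Ds w))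
    (hd : ∀ w : Perm (Fin n), Q1 (Ds w) → Q2 (Ds w) → False) :
    pr n Q = pr n Q1 + pr n Q2 := by
  classical
  unfold pr
  rw [← add_div]
  congr 1
  unfold cnt
  rw [← Nat.cast_add, ← Finset.card_union_of_disjoint]
  · congr 2
    ext w
    simp only [Finset.mem_filter, Finset.mem_univ, true_and, Finset.mem_union]
    exact h w
  · rw [Finset.disjoint_left]
    intro w h1 h2
    simp only [Finset.mem_filter, Finset.mem_univ, true_and] at h1 h2
    exact hd w h1 h2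

end Pool.Agent.R252.DDR
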