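import Pool.Agent.R252.DDRa

/-!
# Permutations with few double descents: inclusion-exclusion over the last long run
-/

set_option autoImplicit false

namespace Pool.Agent.R252.DDR

open Finset Equiv

/-- no two consecutive descents -/
def NDD (P : ℕ → Prop) : Prop := ∀ j, ¬ (P j ∧ P (j + 1))

/-- proportion of permutations without double descents -/
noncomputable def dn (n : ℕ) : ℝ := pr n NDD

/-- `Q` on the first `M` letters, then `k` further descents -/
def Qk (M : ℕ) (Q : (ℕ → Prop) → Prop) (k : ℕ) : (ℕ → Prop) → Prop :=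
  fun P => Q (tr M P) ∧ ∀ j < k, P (M - 1 + j)

noncomputable def bb (M : ℕ) (Q : (ℕ → Prop) → Prop) (k : ℕ) : ℝ := pr (M + k) (Qk M Q k)

/-- `Q` on the first `M` letters, exactly `k` further descents, no double descent afterwards -/
def EX (M : ℕ) (Q : (ℕ → Prop) → Prop) (k : ℕ) : (ℕ → Prop) → Prop :=
  fun P => Q (tr M P) ∧ (∀ j < k, P (M - 1 + j)) ∧ ¬ P (M - 1 + k) ∧ NDD (shf (M + k) P)

noncomputable def XX (M : ℕ) (Q : (ℕ → Prop) → Prop) (k n : ℕ) : ℝ := pr n (EX M Q k)

theorem tr_tr {M k : ℕ} (P : ℕ → Prop) : tr M (tr (M + k) P) = tr M P := by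
  funext j
  apply propext
  constructor
  · rintro ⟨h1, h2, h3⟩
    exact ⟨h1, h3⟩
  · rintro ⟨h1, h2⟩
    exact ⟨h1, by omega, h2⟩

theorem Qk_tr {M : ℕ} (hM : 1 ≤ M) (Q : (ℕ → Prop) → Prop) (k : ℕ) (P : ℕ → Prop) :
    Qk M Q k (tr (M + k) P) ↔ Q (tr M P) ∧ ∀ j < k, P (M - 1 + j) := by
  unfold Qk
  rw [tr_tr]
  constructor
  · rintro ⟨h1, h2⟩
    exact ⟨h1, fun j hj => (h2 j hj).2⟩
  · rintro ⟨h1, h2⟩
    exact ⟨h1, fun j hj => ⟨by omega, h2 j hj⟩⟩

theorem NDD_shf (A : ℕ) (P : ℕ → Prop) : NDD (shf A P) ↔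
    (¬ P A ∧ NDD (shf (A + 1) P)) ∨ (P A ∧ ¬ P (A + 1) ∧ NDD (shf (A + 2) P)) := by
  unfold NDD shf
  constructor
  · intro h
    by_cases hA : P A
    · right
      refine ⟨hA, fun h1 => h 0 ⟨hA, h1⟩, fun j => ?_⟩
      have := h (j + 2)
      rwa [show A + (j + 2) = A + 2 + j by ring, show A + (j + 2 + 1) = A + 2 + (j + 1) by ring]
        at this
    · left
      refine ⟨hA, fun j => ?_⟩
      have := h (j + 1)
      rwa [show A + (j + 1) = A + 1 + j by ring, show A + (j + 1 + 1) = A + 1 + (j + 1) by ring]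
        at this
  · rintro (⟨h1, h2⟩ | ⟨h1, h2, h3⟩) j
    · rcases j with _ | j
      · exact fun h => h1 h.1
      · have := h2 j
        rwa [show A + 1 + j = A + (j + 1) by ring, show A + 1 + (j + 1) = A + (j + 1 + 1) by ring]
          at this
    · rcases j with _ | _ | j
      · exact fun h => h2 h.2
      · exact fun h => h2 h.1
      · have := h3 j
        rwa [show A + 2 + j = A + (j + 1 + 1) by ring,
          show A + 2 + (j + 1) = A + (j + 1 + 1 + 1) by ring] at this

theorem step {M : ℕ} (hM : 1 ≤ M) (Q : (ℕ → Prop) → Prop) (k K : ℕ) :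
    bb M Q k * dn K = XX M Q k (M + k + K) + (XX M Q (k + 1) (M + k + K) +
      XX M Q (k + 2) (M + k + K)) := by
  unfold bb dn
  rw [← pr_split]
  unfold XX
  rw [pr_add (Q1 := EX M Q k) (Q2 := fun P => EX M Q (k + 1) P ∨ EX M Q (k + 2) P)]
  · rw [pr_add (Q := fun P => EX M Q (k + 1) P ∨ EX M Q (k + 2) P) (fun w => Iff.rfl)]
    rintro w ⟨-, h1, h2, -⟩ ⟨-, h3, -⟩
    exact h2 (h3 (k + 1) (by omega))
  · intro w
    rw [Qk_tr hM]
    unfold EX
    constructor
    · rintro ⟨⟨h1, h2⟩, h3⟩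
      by_cases h4 : Ds w (M - 1 + k)
      · right
        have e0 : ∀ j < k + 1, Ds w (M - 1 + j) := by
          intro j hj
          rcases Nat.lt_succ_iff_lt_or_eq.1 hj with h5 | h5
          · exact h2 j h5
          · rw [h5]; exact h4
        rcases (NDD_shf _ _).1 h3 with ⟨h5, h6⟩ | ⟨h5, h6, h7⟩
        · left
          refine ⟨h1, e0, ?_, ?_⟩
          · rwa [show M - 1 + (k + 1) = M + k by omega]
          · rwa [show M + (k + 1) = M + k + 1 by omega]
        · right
          refine ⟨h1, ?_, ?_, ?_⟩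
          · intro j hj
            rcases Nat.lt_succ_iff_lt_or_eq.1 hj with h8 | h8
            · exact e0 j h8
            · rw [h8, show M - 1 + (k + 1) = M + k by omega]
              exact h5
          · rwa [show M - 1 + (k + 2) = M + k + 1 by omega]
          · rwa [show M + (k + 2) = M + k + 2 by omega]
      · left
        exact ⟨h1, h2, h4, h3⟩
    · rintro (⟨h1, h2, h3, h4⟩ | ⟨h1, h2, h3, h4⟩ | ⟨h1, h2, h3, h4⟩)
      · exact ⟨⟨h1, h2⟩, h4⟩
      · refine ⟨⟨h1, fun j hj => h2 j (by omega)⟩, (NDD_shf _ _).2 (Or.inl ⟨?_, ?_⟩)⟩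
        · rwa [show M - 1 + (k + 1) = M + k by omega] at h3
        · rwa [show M + (k + 1) = M + k + 1 by omega] at h4
      · refine ⟨⟨h1, fun j hj => h2 j (by omega)⟩, (NDD_shf _ _).2 (Or.inr ⟨?_, ?_, ?_⟩)⟩
        · have := h2 (k + 1) (by omega)
          rwa [show M - 1 + (k + 1) = M + k by omega] at this
        · rwa [show M - 1 + (k + 2) = M + k + 1 by omega] at h3
        · rwa [show M + (k + 2) = M + k + 2 by omega] at h4
  · rintro w ⟨-, -, h1, -⟩ (⟨-, h2, -⟩ | ⟨-, h2, -⟩)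
    · exact h1 (h2 k (by omega))
    · exact h1 (h2 k (by omega))

theorem XX_zero {M : ℕ} (hM : 1 ≤ M) (Q : (ℕ → Prop) → Prop) {k n : ℕ} (hk : 1 ≤ k)
    (hn : n < M + k) : XX M Q k n = 0 := by
  unfold XX
  apply pr_zero
  rintro w ⟨-, h1, -⟩
  obtain ⟨h2, -⟩ := h1 (k - 1) (by omega)
  omega

/-- the signs `1, -1, 0, 1, -1, 0, …` -/
def cc (k : ℕ) : ℝ := if k % 3 = 0 then 1 else if k % 3 = 1 then -1 else 0

theorem cc_zero (j : ℕ) : cc (3 * j) = 1 := by
  unfold cc
  rw [if_pos (by omega)]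

theorem cc_one (j : ℕ) : cc (3 * j + 1) = -1 := by
  unfold cc
  rw [if_neg (by omega), if_pos (by omega)]

theorem cc_two (j : ℕ) : cc (3 * j + 2) = 0 := by
  unfold cc
  rw [if_neg (by omega), if_neg (by omega)]

theorem cc_add (j : ℕ) : cc (j + 3) = cc j := by
  unfold cc
  rw [show (j + 3) % 3 = j % 3 by omega]

theorem abs_cc (k : ℕ) : |cc k| ≤ 1 := by
  unfold cc
  split_ifs <;> norm_num

/-- telescoping -/
theorem tele (X e : ℕ → ℝ) (h : ∀ k, e k = X k + (X (k + 1) + X (k + 2))) (N : ℕ) :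
    ∑ k ∈ range (3 * N), cc k * e k = X 0 - X (3 * N) := by
  induction N with
  | zero => simp
  | succ N ih =>
    rw [show 3 * (N + 1) = 3 * N + 1 + 1 + 1 by ring, sum_range_succ, sum_range_succ,
      sum_range_succ, ih, cc_zero, cc_one, show 3 * N + 1 + 1 = 3 * N + 2 by ring, cc_two, h, h]
    rw [show 3 * N + 1 + 1 = 3 * N + 2 by ring, show 3 * N + 1 + 2 = 3 * N + 3 by ring,
      show 3 * N + 2 + 1 = 3 * N + 3 by ring]
    ring

/-- the terms of the expansion -/
noncomputable def ee (M : ℕ) (Q : (ℕ → Prop) → Prop) (n k : ℕ) : ℝ :=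
  if M + k ≤ n then bb M Q k * dn (n - M - k) else 0

theorem ee_eq {M : ℕ} (hM : 1 ≤ M) (Q : (ℕ → Prop) → Prop) {n : ℕ} (hn : M ≤ n) (k : ℕ) :
    ee M Q n k = XX M Q k n + (XX M Q (k + 1) n + XX M Q (k + 2) n) := by
  unfold ee
  split_ifs with h
  · rw [step hM, show M + k + (n - M - k) = n by omega]
  · have hk : 1 ≤ k := by omega
    rw [XX_zero hM Q hk (by omega), XX_zero hM Q (by omega) (by omega),
      XX_zero hM Q (by omega) (by omega)]
    ring

theorem expand {M : ℕ} (hM : 1 ≤ M) (Q : (ℕ → Prop) → Prop) {n : ℕ} (hn : M ≤ n) {N : ℕ}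
    (hN : n ≤ 3 * N) (hN0 : 1 ≤ N) :
    XX M Q 0 n = ∑ k ∈ range (3 * N), cc k * ee M Q n k := by
  rw [tele (fun k => XX M Q k n) (ee M Q n) (ee_eq hM Q hn) N,
    XX_zero hM Q (k := 3 * N) (by omega) (by omega), sub_zero]

theorem ee_zero {M : ℕ} (Q : (ℕ → Prop) → Prop) {n k : ℕ} (h : n < M + k) : ee M Q n k = 0 := by
  unfold ee
  rw [if_neg (by omega)]

/-! ### decreasing sequences -/

theorem pr_anti (k : ℕ) : pr (k + 1) (fun P => ∀ j < k, P j) = 1 / (k + 1).factorial := by
  classical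
  unfold pr
  have h2 : cnt (k + 1) (fun P => ∀ j < k, P j) = 1 := by
    unfold cnt
    rw [Finset.card_eq_one]
    refine ⟨Fin.revPerm, ?_⟩
    ext w
    simp only [Finset.mem_filter, Finset.mem_univ, true_and, Finset.mem_singleton]
    constructor
    · intro h
      have hanti : StrictAnti w := by
        rw [Fin.strictAnti_iff_succ_lt]
        intro i
        obtain ⟨h1, h2⟩ := h i i.isLt
        exact h2
      have h1 : StrictMono (w ∘ Fin.rev) := by
        intro a b hab
        exact hanti (Fin.rev_lt_rev.2 hab)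
      have h2 : w ∘ Fin.rev = id := by
        have hs : Function.Surjective (w ∘ Fin.rev) := w.surjective.comp Fin.rev_surjective
        have h3 : (StrictMono.orderIsoOfSurjective _ h1 hs) = OrderIso.refl _ :=
          Subsingleton.elim _ _
        funext x
        exact congrArg (fun e : Fin (k + 1) ≃o Fin (k + 1) => e x) h3
      ext x
      have h3 := congrFun h2 (Fin.rev x)
      simp only [Function.comp, Fin.rev_rev, id] at h3
      rw [h3]
      rfl
    · rintro rfl j hj
      refine ⟨by omega, ?_⟩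
      simp only [Fin.revPerm_apply]
      rw [Fin.rev_lt_rev]
      simp
  rw [h2, Nat.cast_one]

theorem bb_true (k : ℕ) : bb 1 (fun _ => True) k = 1 / (k + 1).factorial := by
  unfold bb
  rw [← pr_anti, Nat.add_comm 1 k]
  apply pr_congr
  intro w
  unfold Qk
  simp

theorem bb_le {M : ℕ} (hM : 1 ≤ M) (Q : (ℕ → Prop) → Prop) (k : ℕ) :
    bb M Q k ≤ 1 / (k + 1).factorial := by
  have h := pr_split (M - 1) (k + 1) (fun _ => True) (fun P => ∀ j < k, P j)
  rw [pr_anti, pr_true (M - 1) (fun _ => trivial), one_mul, show M - 1 + (k + 1) = M + k by omega]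
    at h
  rw [← h]
  unfold bb
  apply pr_mono
  rintro w ⟨-, h1⟩
  exact ⟨trivial, h1⟩

theorem bb_nonneg (M : ℕ) (Q : (ℕ → Prop) → Prop) (k : ℕ) : 0 ≤ bb M Q k := pr_nonneg _ _

/-! ### the recursion for `dn` -/

theorem dn_zero : dn 0 = 1 := by
  unfold dn
  apply pr_true
  rintro w j ⟨⟨h, -⟩, -⟩
  omega

theorem dn_rec {n : ℕ} (hn : 1 ≤ n) : ∑ m ∈ range (n + 1), cc m / m.factorial * dn (n - m) = 0 := by
  have h1 : dn n = XX 1 (fun _ => True) 0 n + XX 1 (fun _ => True) 1 n := by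
    unfold dn XX
    apply pr_add
    · intro w
      have h := NDD_shf 0 (Ds w)
      have e : shf 0 (Ds w) = Ds w := by
        funext j
        simp [shf]
      rw [e] at h
      rw [h]
      unfold EX
      simp
    · rintro w ⟨-, -, h1, -⟩ ⟨-, h2, -⟩
      exact h1 (h2 0 (by omega))
  have h2 := ee_eq le_rfl (fun _ => True) hn 0
  have h3 : dn n = ee 1 (fun _ => True) n 0 - XX 1 (fun _ => True) 2 n := by
    rw [h2, h1]
    ring
  have h4 := tele (fun k => XX 1 (fun _ => True) (k + 2) n)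
    (fun k => ee 1 (fun _ => True) n (k + 2)) (fun k => ee_eq le_rfl _ hn (k + 2)) (n + 1)
  have h5 : XX 1 (fun _ => True) (3 * (n + 1) + 2) n = 0 := XX_zero le_rfl _ (by omega) (by omega)
  simp only [h5, sub_zero, zero_add] at h4
  have h6 : ee 1 (fun _ => True) n 0 = dn (n - 1) := by
    unfold ee
    rw [if_pos (by omega), bb_true]
    simp
  -- rewrite the sum
  have h7 : ∑ k ∈ range (3 * (n + 1)), cc k * ee 1 (fun _ => True) n (k + 2) =
      ∑ k ∈ range (n - 2), cc k * ee 1 (fun _ => True) n (k + 2) := by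
    symm
    apply Finset.sum_subset
    · intro k hk
      rw [mem_range] at hk ⊢
      omega
    · intro k _ hk
      rw [mem_range] at hk
      rw [ee_zero _ (by omega), mul_zero]
  rw [h7] at h4
  have h8 : ∀ k ∈ range (n - 2), cc k * ee 1 (fun _ => True) n (k + 2) =
      cc (k + 3) / (k + 3).factorial * dn (n - (k + 3)) := by
    intro k hk
    rw [mem_range] at hk
    unfold ee
    rw [if_pos (by omega), bb_true, cc_add, show n - 1 - (k + 2) = n - (k + 3) by omega]
    ring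
  rw [Finset.sum_congr rfl h8] at h4
  have c0 : cc 0 = 1 := cc_zero 0
  have c1 : cc 1 = -1 := cc_one 0
  have c2 : cc 2 = 0 := cc_two 0
  rcases Nat.lt_or_ge n 2 with hn2 | hn2
  · obtain rfl : n = 1 := by omega
    simp only [Nat.reduceSub, range_zero, sum_empty] at h4
    rw [← h4, h6] at h3
    rw [sum_range_succ, sum_range_succ, sum_range_zero, c0, c1]
    simp only [Nat.sub_zero, Nat.sub_self] at h3 ⊢
    rw [h3]
    simp
  · obtain ⟨n', rfl⟩ : ∃ n', n = n' + 2 := ⟨n - 2, by omega⟩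
    rw [show n' + 2 + 1 = n' + 1 + 1 + 1 by ring, sum_range_succ', sum_range_succ',
      sum_range_succ', c0]
    simp only [Nat.add_sub_cancel, zero_add, Nat.reduceAdd, c1, c2, Nat.sub_zero] at h4 h3 h6 ⊢
    rw [h6, ← h4] at h3
    rw [h3]
    simp only [Nat.factorial, Nat.cast_one, show n' + 2 - 1 = n' + 1 by omega]
    have e : ∀ k, k + 1 + 1 + 1 = k + 3 := fun k => by ring
    simp only [e]
    ring

end Pool.Agent.R252.DDR
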