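import Pool.Agent.R252.DDRb

/-!
# Exchange of the last two letters; the event of one double descent
-/

set_option autoImplicit false

namespace Pool.Agent.R252.DDR

open Finset Equiv

section swp

variable {n m : ℕ} (hn : m + 1 < n) (w : Perm (Fin n))

theorem sw_low (i : ℕ) (hi : i < m) (h : i < n) :
    (w * Equiv.swap (⟨m, by omega⟩ : Fin n) ⟨m + 1, hn⟩) ⟨i, h⟩ = w ⟨i, h⟩ := by
  rw [Perm.mul_apply, Equiv.swap_apply_of_ne_of_ne]
  · intro h1; rw [Fin.mk.injEq] at h1; omega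
  · intro h1; rw [Fin.mk.injEq] at h1; omega

theorem sw_m : (w * Equiv.swap (⟨m, by omega⟩ : Fin n) ⟨m + 1, hn⟩) ⟨m, by omega⟩ =
    w ⟨m + 1, hn⟩ := by
  rw [Perm.mul_apply, Equiv.swap_apply_left]

theorem sw_m1 : (w * Equiv.swap (⟨m, by omega⟩ : Fin n) ⟨m + 1, hn⟩) ⟨m + 1, hn⟩ =
    w ⟨m, by omega⟩ := by
  rw [Perm.mul_apply, Equiv.swap_apply_right]

end swp

theorem cnt_swap {M : ℕ} (hM : 2 ≤ M) {Q : (ℕ → Prop) → Prop}
    (hQ : ∀ P, Q (tr M P) → P (M - 2)) (k : ℕ) :
    pr (M + (k + 1)) (fun P => (Q (tr M P) ∧ ∀ j < k, P (M - 1 + j)) ∧ P (M - 1 + k)) ≤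
    pr (M + (k + 1)) (fun P => (Q (tr M P) ∧ ∀ j < k, P (M - 1 + j)) ∧ ¬ P (M - 1 + k)) := by
  classical
  unfold pr
  refine div_le_div_of_nonneg_right ?_ (by positivity)
  have hn : (M - 1 + k) + 1 < M + (k + 1) := by omega
  set a : Fin (M + (k + 1)) := ⟨M - 1 + k, by omega⟩ with ha
  set b : Fin (M + (k + 1)) := ⟨M - 1 + k + 1, hn⟩ with hb
  unfold cnt
  norm_cast
  apply Finset.card_le_card_of_injOn (fun w => w * Equiv.swap a b)
  · intro w hw
    simp only [Finset.coe_filter, Finset.mem_univ, true_and, Set.mem_ofPred_eq] at hw ⊢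
    obtain ⟨⟨h1, h2⟩, h3⟩ := hw
    obtain ⟨h3a, h3b⟩ := h3
    have hprev : Ds w (M + k - 2) := by
      rcases Nat.eq_zero_or_pos k with rfl | hk
      · exact hQ _ h1
      · have := h2 (k - 1) (by omega)
        rwa [show M - 1 + (k - 1) = M + k - 2 by omega] at this
    have key : ∀ j, j + 1 < M + k → (Ds (w * Equiv.swap a b : Perm _) j ↔ Ds w j) := by
      intro j hj
      rcases Nat.lt_or_ge (j + 1) (M - 1 + k) with h4 | h4
      · constructor
        · rintro ⟨h5, h6⟩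
          refine ⟨h5, ?_⟩
          rwa [sw_low hn w (j + 1) h4, sw_low hn w j (by omega)] at h6
        · rintro ⟨h5, h6⟩
          refine ⟨h5, ?_⟩
          rwa [sw_low hn w (j + 1) h4, sw_low hn w j (by omega)]
      · have hj2 : j = M + k - 2 := by omega
        subst hj2
        refine ⟨fun _ => hprev, fun _ => ?_⟩
        obtain ⟨h5, h6⟩ := hprev
        refine ⟨h5, ?_⟩
        rw [sw_low hn w (M + k - 2) (by omega)]
        have e1 : (⟨M + k - 2 + 1, h5⟩ : Fin (M + (k + 1))) = ⟨M - 1 + k, by omega⟩ := by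
          rw [Fin.mk.injEq]; omega
        rw [e1] at h6 ⊢
        rw [sw_m hn w]
        exact h3b.trans h6
    have e2 : tr M (Ds (w * Equiv.swap a b : Perm _)) = tr M (Ds w) := by
      funext j
      apply propext
      constructor
      · rintro ⟨h5, h6⟩
        exact ⟨h5, (key j (by omega)).1 h6⟩
      · rintro ⟨h5, h6⟩
        exact ⟨h5, (key j (by omega)).2 h6⟩
    refine ⟨⟨by rw [e2]; exact h1, fun j hj => (key _ (by omega)).2 (h2 j hj)⟩, ?_⟩
    rintro ⟨h5, h6⟩
    rw [sw_m hn w, sw_m1 hn w] at h6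
    exact lt_asymm h6 h3b
  · intro w _ w' _ h
    exact mul_right_cancel h

theorem bb_half {M : ℕ} (hM : 2 ≤ M) {Q : (ℕ → Prop) → Prop}
    (hQ : ∀ P, Q (tr M P) → P (M - 2)) (k : ℕ) : bb M Q (k + 1) ≤ bb M Q k / 2 := by
  have h1 := pr_split (M + k) 1 (Qk M Q k) (fun _ => True)
  rw [pr_true 1 (fun _ => trivial), mul_one] at h1
  have h2 : pr (M + k + 1) (fun P => Qk M Q k (tr (M + k) P) ∧ True) =
      pr (M + (k + 1)) (fun P => (Q (tr M P) ∧ ∀ j < k, P (M - 1 + j)) ∧ P (M - 1 + k)) +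
      pr (M + (k + 1)) (fun P => (Q (tr M P) ∧ ∀ j < k, P (M - 1 + j)) ∧ ¬ P (M - 1 + k)) := by
    apply pr_add
    · intro w
      have e := Qk_tr (show 1 ≤ M by omega) Q k (Ds w)
      rw [and_true]
      change Qk M Q k (tr (M + k) (Ds w)) ↔ _
      rw [e]
      tauto
    · rintro w ⟨-, h⟩ ⟨-, h'⟩
      exact h' h
  have h3 : bb M Q (k + 1) =
      pr (M + (k + 1)) (fun P => (Q (tr M P) ∧ ∀ j < k, P (M - 1 + j)) ∧ P (M - 1 + k)) := by
    unfold bb
    apply pr_congr
    intro w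
    unfold Qk
    constructor
    · rintro ⟨h, h'⟩
      exact ⟨⟨h, fun j hj => h' j (by omega)⟩, h' k (by omega)⟩
    · rintro ⟨⟨h, h'⟩, h''⟩
      refine ⟨h, fun j hj => ?_⟩
      rcases Nat.lt_succ_iff_lt_or_eq.1 hj with h5 | h5
      · exact h' j h5
      · rw [h5]; exact h''
  have h4 := cnt_swap hM hQ k
  have h5 : bb M Q k = pr (M + k + 1) (fun P => Qk M Q k (tr (M + k) P) ∧ True) := h1.symm
  rw [h5, h2, ← h3]
  rw [← h3] at h4
  linarith

/-! ### the event -/

/-- the only double descent is at `i` (numbered as in the problem: a descent at the 0-based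
positions `i - 2` and `i - 1`) -/
def One (i : ℕ) (P : ℕ → Prop) : Prop :=
  P (i - 2) ∧ P (i - 1) ∧ ∀ j, j ≠ i - 2 → ¬ (P j ∧ P (j + 1))

theorem One_last {i : ℕ} (hi : 2 ≤ i) (P : ℕ → Prop) (h : One i (tr (i + 1) P)) :
    P (i + 1 - 2) := by
  rw [show i + 1 - 2 = i - 1 by omega]
  exact h.2.1.2

theorem One_iff {i : ℕ} (hi : 2 ≤ i) (P : ℕ → Prop) :
    One i P ↔ EX (i + 1) (One i) 0 P := by
  unfold EX One
  constructor
  · rintro ⟨h1, h2, h3⟩
    refine ⟨⟨⟨by omega, h1⟩, ⟨by omega, h2⟩, ?_⟩, fun j hj => by omega, ?_, ?_⟩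
    · rintro j hj ⟨⟨-, h4⟩, ⟨-, h5⟩⟩
      exact h3 j hj ⟨h4, h5⟩
    · intro h4
      apply h3 (i - 1) (by omega)
      refine ⟨h2, ?_⟩
      rw [show i - 1 + 1 = i by omega]
      simpa using h4
    · rintro j ⟨h4, h5⟩
      exact h3 (i + 1 + 0 + j) (by omega) ⟨h4, h5⟩
  · rintro ⟨⟨⟨-, h1⟩, ⟨-, h2⟩, h3⟩, -, h4, h5⟩
    refine ⟨h1, h2, ?_⟩
    rintro j hj ⟨h6, h7⟩
    rcases Nat.lt_or_ge j (i + 1) with h8 | h8
    · rcases Nat.lt_or_ge (j + 1) i with h9 | h9
      · exact h3 j hj ⟨⟨by omega, h6⟩, ⟨by omega, h7⟩⟩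
      · rcases Nat.lt_or_ge j i with h10 | h10
        · apply h4
          have : j + 1 = i + 1 - 1 + 0 := by omega
          rwa [← this]
        · apply h4
          have : j = i + 1 - 1 + 0 := by omega
          rwa [← this]
    · obtain ⟨l, rfl⟩ : ∃ l, j = i + 1 + l := ⟨j - (i + 1), by omega⟩
      exact h5 l ⟨h6, h7⟩

/-- a permutation of `i+1` letters with the only double descent at `i` -/
def wit (i : ℕ) (j : Fin (i + 1)) : Fin (i + 1) :=
  if h : j.val + 1 < i then ⟨j.val + 2, by omega⟩ else ⟨i - j.val, by omega⟩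

theorem wit_val {i : ℕ} (j : Fin (i + 1)) :
    (wit i j).val = if j.val + 1 < i then j.val + 2 else i - j.val := by
  unfold wit
  split_ifs <;> rfl

theorem wit_inj (i : ℕ) : Function.Injective (wit i) := by
  intro a b h
  have h2 : (wit i a).val = (wit i b).val := by rw [h]
  rw [wit_val, wit_val] at h2
  have ha := a.isLt
  have hb := b.isLt
  ext
  split_ifs at h2 <;> omega

theorem bb_pos {i : ℕ} (hi : 2 ≤ i) : 0 < bb (i + 1) (One i) 0 := by
  classical
  unfold bb pr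
  apply div_pos
  · unfold cnt
    rw [Nat.cast_pos, Finset.card_pos]
    refine ⟨Equiv.ofBijective (wit i) (Finite.injective_iff_bijective.1 (wit_inj i)), ?_⟩
    simp only [Finset.mem_filter, Finset.mem_univ, true_and]
    unfold Qk One
    have hval : ∀ j (h : j + 1 < i + 1), Ds (wit i) j ↔
        (wit i ⟨j + 1, h⟩).val < (wit i ⟨j, by omega⟩).val := by
      intro j h
      constructor
      · rintro ⟨h1, h2⟩
        exact h2
      · intro h1
        exact ⟨h, h1⟩
    have hD : ∀ j, Ds (wit i) j → i - 2 ≤ j ∧ j < i := by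
      rintro j ⟨h1, h2⟩
      have h3 : (wit i ⟨j + 1, h1⟩).val < (wit i ⟨j, by omega⟩).val := h2
      rw [wit_val, wit_val] at h3
      simp only at h3
      refine ⟨?_, by omega⟩
      by_contra h4
      rw [if_pos (by omega), if_pos (by omega)] at h3
      omega
    have hD1 : Ds (wit i) (i - 2) := by
      rw [hval (i - 2) (by omega), wit_val, wit_val]
      simp only
      rw [if_neg (by omega)]
      split_ifs <;> omega
    have hD2 : Ds (wit i) (i - 1) := by
      rw [hval (i - 1) (by omega), wit_val, wit_val]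
      simp only
      rw [if_neg (by omega), if_neg (by omega)]
      omega
    refine ⟨⟨⟨by omega, hD1⟩, ⟨by omega, hD2⟩, ?_⟩, fun j hj => by omega⟩
    rintro j hj ⟨⟨-, h4⟩, ⟨-, h5⟩⟩
    have h6 := hD _ h4
    have h7 := hD _ h5
    omega
  · positivity

end Pool.Agent.R252.DDR
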