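import Mathlib

/-!
# Asymptotics of the coefficients of the reciprocal of `∑ cc m z^m / m!`
-/

set_option autoImplicit false

namespace Pool.Agent.R252.DDRd

open Complex Filter Topology Metric

/-- the signs `1, -1, 0, 1, -1, 0, …` -/
def cs (k : ℕ) : ℝ := if k % 3 = 0 then 1 else if k % 3 = 1 then -1 else 0

noncomputable def om : ℂ := -1 / 2 + (Real.sqrt 3 / 2 : ℝ) * I
noncomputable def om' : ℂ := -1 / 2 - (Real.sqrt 3 / 2 : ℝ) * I

theorem sq3 : ((Real.sqrt 3 : ℝ) : ℂ) * ((Real.sqrt 3 : ℝ) : ℂ) = 3 := by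
  rw [← ofReal_mul, Real.mul_self_sqrt (by norm_num)]
  norm_num

theorem om_add : om + om' = -1 := by
  unfold om om'
  ring

theorem om_mul : om * om' = 1 := by
  unfold om om'
  push_cast
  have h := sq3
  have hI := I_mul_I
  linear_combination (-1/4 : ℂ) * I * I * h - (3 / 4 : ℂ) * hI

theorem om_sub : om - om' = (Real.sqrt 3 : ℝ) * I := by
  unfold om om'
  push_cast
  ring

theorem om_sub_ne : om - om' ≠ 0 := by
  rw [om_sub]
  apply mul_ne_zero
  · rw [Ne, ofReal_eq_zero]
    positivity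
  · exact I_ne_zero

theorem om_sq : om * om = om' := by
  have h1 := om_add
  have h2 := om_mul
  linear_combination om * h1 - h2 - h1

theorem om'_sq : om' * om' = om := by
  have h1 := om_add
  have h2 := om_mul
  linear_combination om' * h1 - h2 - h1

theorem om_cube : om ^ 3 = 1 := by
  have h1 := om_sq
  have h2 := om_mul
  calc om ^ 3 = om * (om * om) := by ring
    _ = 1 := by rw [h1, h2]

theorem om'_cube : om' ^ 3 = 1 := by
  have h1 := om'_sq
  have h2 := om_mul
  calc om' ^ 3 = (om' * om') * om' := by ring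
    _ = 1 := by rw [h1, h2]

theorem cs_om (m : ℕ) : ((cs m : ℝ) : ℂ) * (om - om') = om ^ (m + 1) - om' ^ (m + 1) := by
  obtain ⟨q, r, hr, rfl⟩ : ∃ q r, r < 3 ∧ m = 3 * q + r :=
    ⟨m / 3, m % 3, Nat.mod_lt _ (by norm_num), (Nat.div_add_mod m 3).symm⟩
  have e1 : om ^ (3 * q + r + 1) = om ^ (r + 1) := by
    rw [show 3 * q + r + 1 = 3 * q + (r + 1) by ring, pow_add, pow_mul, om_cube, one_pow, one_mul]
  have e2 : om' ^ (3 * q + r + 1) = om' ^ (r + 1) := by
    rw [show 3 * q + r + 1 = 3 * q + (r + 1) by ring, pow_add, pow_mul, om'_cube, one_pow, one_mul]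
  rw [e1, e2]
  have h1 := om_sq
  have h2 := om'_sq
  have h3 := om_add
  interval_cases r
  · have : cs (3 * q + 0) = 1 := by unfold cs; rw [if_pos (by omega)]
    rw [this]
    simp
  · have : cs (3 * q + 1) = -1 := by unfold cs; rw [if_neg (by omega), if_pos (by omega)]
    rw [this]
    push_cast
    linear_combination h2 - h1
  · have : cs (3 * q + 2) = 0 := by unfold cs; rw [if_neg (by omega), if_neg (by omega)]
    rw [this]
    simp [om_cube, om'_cube]

/-- the entire function `∑ cs m z^m / m!` -/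
noncomputable def g (z : ℂ) : ℂ := (om * exp (om * z) - om' * exp (om' * z)) / (om - om')

theorem hasSum_g (z : ℂ) :
    HasSum (fun m : ℕ => (((cs m / m.factorial : ℝ)) : ℂ) * z ^ m) (g z) := by
  have h1 : HasSum (fun m : ℕ => (om * z) ^ m / m.factorial) (exp (om * z)) := by
    rw [Complex.exp_eq_exp_ℂ]
    exact NormedSpace.expSeries_div_hasSum_exp (om * z)
  have h2 : HasSum (fun m : ℕ => (om' * z) ^ m / m.factorial) (exp (om' * z)) := by
    rw [Complex.exp_eq_exp_ℂ]
    exact NormedSpace.expSeries_div_hasSum_exp (om' * z)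
  have h3 := ((h1.mul_left om).sub (h2.mul_left om')).div_const (om - om')
  have h4 : (fun m : ℕ => (((cs m / m.factorial : ℝ)) : ℂ) * z ^ m) =
      fun m : ℕ => (om * ((om * z) ^ m / m.factorial) - om' * ((om' * z) ^ m / m.factorial)) /
        (om - om') := by
    funext m
    have h5 := cs_om m
    rw [eq_div_iff om_sub_ne]
    push_cast
    rw [mul_pow, mul_pow]
    have h6 : ((cs m : ℂ) / (m.factorial : ℂ) * z ^ m) * (om - om') =
        ((cs m : ℂ) * (om - om')) * z ^ m / (m.factorial : ℂ) := by ring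
    rw [h6, h5, pow_succ, pow_succ]
    ring
  rw [h4]
  exact h3

theorem summable_g (z : ℂ) :
    Summable (fun m : ℕ => ‖(((cs m / m.factorial : ℝ)) : ℂ) * z ^ m‖) :=
  (hasSum_g z).summable.norm

noncomputable def rho : ℝ := 2 * Real.pi / (3 * Real.sqrt 3)

theorem sqrt3_bounds : (17 / 10 : ℝ) < Real.sqrt 3 ∧ Real.sqrt 3 < 18 / 10 := by
  constructor
  · rw [Real.lt_sqrt (by norm_num)]
    norm_num
  · rw [Real.sqrt_lt' (by norm_num)]
    norm_num

theorem rho_gt : 1 < rho := by
  unfold rho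
  have h1 := sqrt3_bounds
  have h2 := Real.pi_gt_three
  rw [lt_div_iff₀ (by positivity)]
  linarith [h1.2]

theorem rho_lt : rho < 3 / 2 := by
  unfold rho
  have h1 := sqrt3_bounds
  have h2 := Real.pi_lt_d2
  rw [div_lt_iff₀ (by positivity)]
  linarith [h1.1]

theorem om_exp : om = exp (((2 * Real.pi / 3 : ℝ) : ℂ) * I) := by
  rw [exp_mul_I, ← ofReal_cos, ← ofReal_sin]
  have h1 : Real.cos (2 * Real.pi / 3) = -1 / 2 := by
    rw [show 2 * Real.pi / 3 = Real.pi - Real.pi / 3 by ring, Real.cos_pi_sub, Real.cos_pi_div_three]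
    norm_num
  have h2 : Real.sin (2 * Real.pi / 3) = Real.sqrt 3 / 2 := by
    rw [show 2 * Real.pi / 3 = Real.pi - Real.pi / 3 by ring, Real.sin_pi_sub, Real.sin_pi_div_three]
  rw [h1, h2]
  unfold om
  push_cast
  ring

theorem g_zero_iff (z : ℂ) : g z = 0 ↔ exp ((om - om') * z) = om := by
  unfold g
  rw [div_eq_zero_iff]
  have h0 : exp (om' * z) * exp (-(om' * z)) = 1 := by
    rw [← exp_add]
    simp
  have h00 : exp (om * z) * exp (-(om' * z)) = exp ((om - om') * z) := by
    rw [← exp_add]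
    congr 1
    ring
  have hne : exp (om' * z) ≠ 0 := exp_ne_zero _
  constructor
  · rintro (h | h)
    · have h1 := om'_sq
      have h2 := om_mul
      have h3 : om * exp (om * z) = om' * exp (om' * z) := sub_eq_zero.1 h
      calc exp ((om - om') * z) = om' * (om * exp (om * z)) * exp (-(om' * z)) := by
            rw [← h00]
            linear_combination (-1 : ℂ) * exp (om * z) * exp (-(om' * z)) * h2
        _ = (om' * om') * (exp (om' * z) * exp (-(om' * z))) := by
            rw [h3]; ring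
        _ = om := by rw [h0, h1, mul_one]
    · exact absurd h om_sub_ne
  · intro h
    left
    have h1 := om_sq
    have h3 : exp (om * z) = exp ((om - om') * z) * exp (om' * z) := by
      rw [← exp_add]
      congr 1
      ring
    rw [h3, h]
    linear_combination exp (om' * z) * h1

theorem g_zero_of {z : ℂ} (hz : ‖z‖ ≤ 3 / 2) (h : g z = 0) : z = (rho : ℂ) := by
  rw [g_zero_iff, om_sub, om_exp, Complex.exp_eq_exp_iff_exists_int] at h
  obtain ⟨n, hn⟩ := h
  have h1 : ((Real.sqrt 3 : ℝ) : ℂ) * z = ((2 * Real.pi / 3 + n * (2 * Real.pi) : ℝ) : ℂ) := by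
    have h2 : I * (((Real.sqrt 3 : ℝ) : ℂ) * z) =
        I * ((2 * Real.pi / 3 + n * (2 * Real.pi) : ℝ) : ℂ) := by
      push_cast at hn ⊢
      linear_combination hn
    exact mul_left_cancel₀ I_ne_zero h2
  have hs := sqrt3_bounds
  have hpi := Real.pi_gt_three
  have h3 : |2 * Real.pi / 3 + n * (2 * Real.pi)| ≤ Real.sqrt 3 * (3 / 2) := by
    have h4 := congrArg norm h1
    rw [norm_mul, Complex.norm_real, Complex.norm_real, Real.norm_eq_abs, Real.norm_eq_abs,
      abs_of_pos (by linarith [hs.1])] at h4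
    rw [← h4]
    exact mul_le_mul_of_nonneg_left hz (by linarith [hs.1])
  have hn0 : n = 0 := by
    rw [abs_le] at h3
    by_contra hne
    rcases lt_or_gt_of_ne hne with h5 | h5
    · have h6 : (n : ℝ) ≤ -1 := by exact_mod_cast Int.le_sub_one_of_lt h5
      nlinarith [h3.1, hs.2]
    · have h6 : (1 : ℝ) ≤ n := by exact_mod_cast h5
      nlinarith [h3.2, hs.2]
  rw [hn0] at h1
  have hsne : ((Real.sqrt 3 : ℝ) : ℂ) ≠ 0 := by
    rw [Ne, ofReal_eq_zero]
    linarith [hs.1]
  apply mul_left_cancel₀ hsne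
  rw [h1]
  unfold rho
  rw [← ofReal_mul]
  congr 1
  have hsr : Real.sqrt 3 ≠ 0 := by linarith [hs.1]
  field_simp
  simp

theorem g_rho : g (rho : ℂ) = 0 := by
  rw [g_zero_iff, om_sub, om_exp]
  congr 1
  unfold rho
  have hsr : Real.sqrt 3 ≠ 0 := by linarith [sqrt3_bounds.1]
  have h1 : (Real.sqrt 3 : ℝ) * (2 * Real.pi / (3 * Real.sqrt 3)) = 2 * Real.pi / 3 := by
    field_simp
  have h2 := congrArg (fun x : ℝ => (x : ℂ)) h1
  simp only [ofReal_mul] at h2
  push_cast at h2 ⊢
  linear_combination I * h2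

theorem g_deriv (z : ℂ) :
    HasDerivAt g ((om * om * exp (om * z) - om' * om' * exp (om' * z)) / (om - om')) z := by
  have h1 : HasDerivAt (fun z => exp (om * z)) (exp (om * z) * om) z := by
    have := ((hasDerivAt_id z).const_mul om).cexp
    simpa using this
  have h2 : HasDerivAt (fun z => exp (om' * z)) (exp (om' * z) * om') z := by
    have := ((hasDerivAt_id z).const_mul om').cexp
    simpa using this
  have h3 := ((h1.const_mul om).sub (h2.const_mul om')).div_const (om - om')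
  refine HasDerivAt.congr_deriv h3 ?_
  ring

theorem g_differentiable : Differentiable ℂ g := fun z => (g_deriv z).differentiableAt

theorem g_deriv_rho : deriv g (rho : ℂ) ≠ 0 := by
  rw [(g_deriv _).deriv]
  have h : om * exp (om * rho) - om' * exp (om' * rho) = 0 := by
    have h1 := g_rho
    unfold g at h1
    rcases div_eq_zero_iff.1 h1 with h2 | h2
    · exact h2
    · exact absurd h2 om_sub_ne
  have h3 : om * om * exp (om * rho) - om' * om' * exp (om' * rho) =
      (om - om') * (om * exp (om * rho)) := by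
    linear_combination om' * h
  rw [h3, mul_div_cancel_left₀ _ om_sub_ne]
  apply mul_ne_zero
  · intro h4
    have := om_mul
    rw [h4, zero_mul] at this
    exact zero_ne_one this
  · exact exp_ne_zero _


/-- `(z - rho) / g z`, with its value at `rho` -/
noncomputable def Fh (z : ℂ) : ℂ := (dslope g (rho : ℂ) z)⁻¹

theorem dslope_ne {z : ℂ} (hz : ‖z‖ ≤ 3 / 2) : dslope g (rho : ℂ) z ≠ 0 := by
  by_cases h : z = (rho : ℂ)
  · rw [h, dslope_same]
    exact g_deriv_rho
  · rw [dslope_of_ne _ h, slope_def_field, g_rho, sub_zero]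
    intro h1
    rcases div_eq_zero_iff.1 h1 with h2 | h2
    · exact h (g_zero_of hz h2)
    · exact h (sub_eq_zero.1 h2)

theorem Fh_diff : DifferentiableOn ℂ Fh (closedBall 0 ((3 / 2 : NNReal) : ℝ)) := by
  unfold Fh
  apply DifferentiableOn.fun_inv
  · have h : DifferentiableOn ℂ (dslope g (rho : ℂ)) Set.univ :=
      (differentiableOn_dslope Filter.univ_mem).2 g_differentiable.differentiableOn
    exact h.mono (Set.subset_univ _)
  · intro z hz
    apply dslope_ne
    rw [mem_closedBall, dist_zero_right] at hz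
    simpa using hz

theorem Fh_eq {z : ℂ} (h : z ≠ (rho : ℂ)) : Fh z = (z - rho) / g z := by
  unfold Fh
  rw [dslope_of_ne _ h, slope_def_field, g_rho, sub_zero, inv_div]

theorem norm_rho : ‖(rho : ℂ)‖ < 3 / 2 := by
  rw [Complex.norm_real, Real.norm_eq_abs, abs_of_pos (by linarith [rho_gt])]
  exact rho_lt

theorem asympt (d : ℕ → ℝ) (h0 : d 0 = 1) (hnn : ∀ n, 0 ≤ d n) (hb : ∀ n, d n ≤ 1)
    (hrec : ∀ n, 1 ≤ n → ∑ m ∈ Finset.range (n + 1), cs m / m.factorial * d (n - m) = 0) :
    ∃ c : ℝ, 0 < c ∧ Tendsto (fun n => d n * rho ^ n) atTop (𝓝 c) := by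
  -- the series of `d`
  have hdsum : ∀ z : ℂ, ‖z‖ < 1 → Summable (fun n : ℕ => ‖((d n : ℝ) : ℂ) * z ^ n‖) := by
    intro z hz
    refine Summable.of_nonneg_of_le (fun n => norm_nonneg _) (fun n => ?_)
      (summable_geometric_of_lt_one (norm_nonneg z) hz)
    rw [norm_mul, norm_pow, Complex.norm_real, Real.norm_eq_abs, abs_of_nonneg (hnn n)]
    exact mul_le_of_le_one_left (by positivity) (hb n)
  have hprod : ∀ z : ℂ, ‖z‖ < 1 → g z * ∑' n : ℕ, ((d n : ℝ) : ℂ) * z ^ n = 1 := by
    intro z hz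
    rw [← (hasSum_g z).tsum_eq,
      tsum_mul_tsum_eq_tsum_sum_range_of_summable_norm (summable_g z) (hdsum z hz)]
    have h1 : ∀ n : ℕ, ∑ k ∈ Finset.range (n + 1), (((cs k / k.factorial : ℝ)) : ℂ) * z ^ k *
        (((d (n - k) : ℝ) : ℂ) * z ^ (n - k)) = if n = 0 then 1 else 0 := by
      intro n
      have h2 : ∀ k ∈ Finset.range (n + 1), (((cs k / k.factorial : ℝ)) : ℂ) * z ^ k *
        (((d (n - k) : ℝ) : ℂ) * z ^ (n - k)) =
          (((cs k / k.factorial * d (n - k) : ℝ)) : ℂ) * z ^ n := by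
        intro k hk
        rw [Finset.mem_range] at hk
        have h3 : z ^ n = z ^ k * z ^ (n - k) := by
          rw [← pow_add]
          congr 1
          omega
        rw [h3]
        push_cast
        ring
      rw [Finset.sum_congr rfl h2, ← Finset.sum_mul, ← ofReal_sum]
      rcases Nat.eq_zero_or_pos n with rfl | hn
      · simp [h0, cs]
      · rw [hrec n hn, if_neg (by omega)]
        simp
    simp only [h1]
    rw [tsum_ite_eq]
  -- coefficients of `Fh`
  set b : ℕ → ℂ := fun n => (if n = 0 then 0 else ((d (n - 1) : ℝ) : ℂ)) -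
    (rho : ℂ) * ((d n : ℝ) : ℂ) with hbdef
  have hbsum : ∀ z : ℂ, ‖z‖ < 1 → HasSum (fun n : ℕ => z ^ n • b n) (Fh z) := by
    intro z hz
    have hzr : z ≠ (rho : ℂ) := by
      intro h
      rw [h, Complex.norm_real, Real.norm_eq_abs, abs_of_pos (by linarith [rho_gt])] at hz
      linarith [rho_gt]
    have hg : g z ≠ 0 := by
      intro h
      have := hprod z hz
      rw [h, zero_mul] at this
      exact zero_ne_one this
    have hD : HasSum (fun n : ℕ => ((d n : ℝ) : ℂ) * z ^ n) (∑' n : ℕ, ((d n : ℝ) : ℂ) * z ^ n) :=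
      (hdsum z hz).of_norm.hasSum
    have hD2 : HasSum (fun n : ℕ => (if n = 0 then 0 else ((d (n - 1) : ℝ) : ℂ)) * z ^ n)
        (z * ∑' n : ℕ, ((d n : ℝ) : ℂ) * z ^ n) := by
      have h1 : HasSum (fun n : ℕ => (if n + 1 = 0 then 0 else ((d (n + 1 - 1) : ℝ) : ℂ)) *
          z ^ (n + 1)) (z * ∑' n : ℕ, ((d n : ℝ) : ℂ) * z ^ n) := by
        have h2 := hD.mul_left z
        have h3 : (fun n : ℕ => (if n + 1 = 0 then 0 else ((d (n + 1 - 1) : ℝ) : ℂ)) *
          z ^ (n + 1)) = fun n : ℕ => z * (((d n : ℝ) : ℂ) * z ^ n) := by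
          funext n
          rw [if_neg (by omega), Nat.add_sub_cancel, pow_succ]
          ring
        rw [h3]
        exact h2
      have h4 := (hasSum_nat_add_iff (f := fun n : ℕ =>
        (if n = 0 then 0 else ((d (n - 1) : ℝ) : ℂ)) * z ^ n) 1).1 h1
      simpa using h4
    have h5 := hD2.sub (hD.mul_left (rho : ℂ))
    have h6 : (fun n : ℕ => z ^ n • b n) = fun n : ℕ =>
        (if n = 0 then 0 else ((d (n - 1) : ℝ) : ℂ)) * z ^ n -
          (rho : ℂ) * (((d n : ℝ) : ℂ) * z ^ n) := by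
      funext n
      rw [smul_eq_mul, hbdef]
      ring
    have h7 : Fh z = z * ∑' n : ℕ, ((d n : ℝ) : ℂ) * z ^ n -
        (rho : ℂ) * ∑' n : ℕ, ((d n : ℝ) : ℂ) * z ^ n := by
      rw [Fh_eq hzr, div_eq_iff hg]
      have := hprod z hz
      linear_combination (-(z - rho) : ℂ) * this
    rw [h6, h7]
    exact h5
  have hfp1 : HasFPowerSeriesAt Fh (FormalMultilinearSeries.ofScalars ℂ b) 0 := by
    rw [hasFPowerSeriesAt_iff]
    have : ∀ᶠ z : ℂ in 𝓝 0, ‖z‖ < 1 := by
      have h1 : ball (0 : ℂ) 1 ∈ 𝓝 (0 : ℂ) := ball_mem_nhds _ one_pos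
      filter_upwards [h1] with z hz
      simpa using hz
    filter_upwards [this] with z hz
    have h2 := hbsum z hz
    simpa using h2
  have hfp2 := Fh_diff.hasFPowerSeriesOnBall (by positivity)
  have heq := hfp2.hasFPowerSeriesAt.eq_formalMultilinearSeries hfp1
  rw [heq] at hfp2
  have hmem : (rho : ℂ) ∈ Metric.eball (0 : ℂ) ((3 / 2 : NNReal) : ENNReal) := by
    rw [mem_eball_zero_iff, enorm_eq_nnnorm, ENNReal.coe_lt_coe, ← NNReal.coe_lt_coe]
    have := norm_rho
    simpa using this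
  have hs := hfp2.hasSum hmem
  rw [zero_add] at hs
  have hs2 : HasSum (fun n : ℕ => (rho : ℂ) ^ n * b n) (Fh rho) := by
    have h1 : (fun n : ℕ => (rho : ℂ) ^ n * b n) = fun n : ℕ =>
        (FormalMultilinearSeries.ofScalars ℂ b n) fun _ => (rho : ℂ) := by
      funext n
      rw [FormalMultilinearSeries.apply_eq_pow_smul_coeff,
        FormalMultilinearSeries.coeff_ofScalars, smul_eq_mul]
    rw [h1]
    exact hs
  have hpart : ∀ n : ℕ, ∑ k ∈ Finset.range (n + 1), (rho : ℂ) ^ k * b k =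
      -(rho : ℂ) * (((d n * rho ^ n : ℝ)) : ℂ) := by
    intro n
    induction n with
    | zero =>
      simp [hbdef, h0]
    | succ n ih =>
      rw [Finset.sum_range_succ, ih]
      simp only [hbdef]
      rw [if_neg (by omega), Nat.add_sub_cancel]
      push_cast
      ring
  have hrho : (rho : ℂ) ≠ 0 := by
    rw [Ne, ofReal_eq_zero]
    linarith [rho_gt]
  have hlim1 : Tendsto (fun n : ℕ => -(rho : ℂ) * (((d n * rho ^ n : ℝ)) : ℂ)) atTop
      (𝓝 (Fh rho)) := by
    have h1 := hs2.tendsto_sum_nat.comp (tendsto_add_atTop_nat 1)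
    refine h1.congr fun n => ?_
    exact hpart n
  have hlim2 : Tendsto (fun n : ℕ => (((d n * rho ^ n : ℝ)) : ℂ)) atTop
      (𝓝 ((-(rho : ℂ))⁻¹ * Fh rho)) := by
    refine (hlim1.const_mul ((-(rho : ℂ))⁻¹)).congr fun n => ?_
    rw [← mul_assoc, inv_mul_cancel₀ (neg_ne_zero.2 hrho), one_mul]
  set cC : ℂ := (-(rho : ℂ))⁻¹ * Fh rho with hcC
  have hlim3 : Tendsto (fun n : ℕ => d n * rho ^ n) atTop (𝓝 cC.re) := by
    have h1 := (Complex.continuous_re.tendsto cC).comp hlim2
    refine h1.congr fun n => ?_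
    simp only [Function.comp, ofReal_re]
  have hpos : 0 ≤ cC.re := ge_of_tendsto' hlim3 fun n =>
    mul_nonneg (hnn n) (pow_nonneg (by linarith [rho_gt]) n)
  have hne : cC.re ≠ 0 := by
    intro h
    have h1 : Tendsto (fun n : ℕ => (((d n * rho ^ n : ℝ)) : ℂ)) atTop (𝓝 ((cC.re : ℝ) : ℂ)) :=
      (Complex.continuous_ofReal.tendsto _).comp hlim3
    have h2 : cC = ((cC.re : ℝ) : ℂ) := tendsto_nhds_unique hlim2 h1
    rw [h, ofReal_zero] at h2
    have h3 : Fh rho ≠ 0 := by
      unfold Fh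
      rw [dslope_same]
      exact inv_ne_zero g_deriv_rho
    exact mul_ne_zero (inv_ne_zero (neg_ne_zero.2 hrho)) h3 h2
  exact ⟨cC.re, lt_of_le_of_ne hpos (Ne.symm hne), hlim3⟩

end Pool.Agent.R252.DDRd
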