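import Mathlib

/-!
A covering argument, and an iteration lemma for densities.
-/

set_option autoImplicit false

open MeasureTheory Set Filter Topology Module
open scoped ENNReal NNReal ContDiff MeasureTheory

namespace Pool.Agent.R252.Jump

/-- If `μ(B(x,r)) ≤ C r^s` for small `r`, at all points of `F`, then `H^s(F) = 0` implies
`μ(F) = 0`. -/
lemma null_of_density {X : Type*} [MetricSpace X] [MeasurableSpace X] [BorelSpace X]
    (μ : Measure X) {s : ℝ} (hs : 0 < s) {C : ℝ≥0} {ρ₀ : ℝ} (hρ : 0 < ρ₀) {F : Set X}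
    (h : ∀ x ∈ F, ∀ r, 0 < r → r ≤ ρ₀ → μ (Metric.closedBall x r) ≤ C * ENNReal.ofReal (r ^ s))
    (h0 : μH[s] F = 0) : μ F = 0 := by
  -- points have measure zero
  have hpt : ∀ x ∈ F, μ {x} = 0 := by
    intro x hx
    have hlim : Tendsto (fun r : ℝ => (C : ℝ≥0∞) * ENNReal.ofReal (r ^ s)) (𝓝[>] 0) (𝓝 0) := by
      have h1 : Tendsto (fun r : ℝ => r ^ s) (𝓝[>] 0) (𝓝 0) := by
        have := (Real.continuousAt_rpow_const 0 s (Or.inr hs.le)).tendsto
        rw [Real.zero_rpow hs.ne'] at this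
        exact this.mono_left nhdsWithin_le_nhds
      have h2 := ENNReal.tendsto_ofReal h1
      rw [ENNReal.ofReal_zero] at h2
      have h3 := ENNReal.Tendsto.const_mul h2 (Or.inr (ENNReal.coe_ne_top (r := C)))
      simpa using h3
    refine le_antisymm (ge_of_tendsto hlim ?_) bot_le
    have h4 : ∀ᶠ r : ℝ in 𝓝[>] 0, r ≤ ρ₀ := mem_nhdsWithin_of_mem_nhds (Iic_mem_nhds hρ)
    filter_upwards [self_mem_nhdsWithin, h4] with r hr hr2
    exact (measure_mono (singleton_subset_iff.2 (Metric.mem_closedBall_self (le_of_lt hr)))).trans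
      (h x hx r hr hr2)
  have hcov : ∀ t : Set X, Metric.ediam t ≤ ENNReal.ofReal ρ₀ →
      μ (t ∩ F) ≤ C * ⨆ _ : t.Nonempty, Metric.ediam t ^ s := by
    intro t ht
    rcases (t ∩ F).eq_empty_or_nonempty with he | ⟨x, hxt, hxF⟩
    · rw [he, measure_empty]; exact bot_le
    · have hne : t.Nonempty := ⟨x, hxt⟩
      rw [iSup_pos hne]
      have hfin : Metric.ediam t ≠ ⊤ := ne_top_of_le_ne_top ENNReal.ofReal_ne_top ht
      rcases eq_or_ne (Metric.ediam t) 0 with hz | hz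
      · have hsub : t ∩ F ⊆ {x} := by
          intro y hy
          have := Metric.ediam_eq_zero_iff.1 hz
          exact this hy.1 hxt
        have : μ (t ∩ F) = 0 := measure_mono_null hsub (hpt x hxF)
        rw [this]; exact bot_le
      · have hr : 0 < (Metric.ediam t).toReal := ENNReal.toReal_pos hz hfin
        have hr2 : (Metric.ediam t).toReal ≤ ρ₀ := ENNReal.toReal_le_of_le_ofReal hρ.le ht
        have hsub : t ∩ F ⊆ Metric.closedBall x (Metric.ediam t).toReal := by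
          intro y hy
          rw [Metric.mem_closedBall, dist_edist]
          exact ENNReal.toReal_mono hfin (Metric.edist_le_ediam_of_mem hy.1 hxt)
        refine (measure_mono hsub).trans ((h x hxF _ hr hr2).trans (le_of_eq ?_))
        rw [← ENNReal.ofReal_rpow_of_pos hr, ENNReal.ofReal_toReal hfin]
  have hmain : ∀ ε : ℝ≥0, 0 < ε → μ F ≤ C * ε := by
    intro ε hε
    rw [Measure.hausdorffMeasure_apply] at h0
    have h1 : ⨅ (t : ℕ → Set X) (_ : F ⊆ ⋃ n, t n) (_ : ∀ n, Metric.ediam (t n) ≤ ENNReal.ofReal ρ₀),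
          ∑' n, ⨆ _ : (t n).Nonempty, Metric.ediam (t n) ^ s < (ε : ℝ≥0∞) := by
      refine lt_of_le_of_lt ?_ (ENNReal.coe_pos.2 hε)
      rw [← h0]
      exact le_iSup₂_of_le (ENNReal.ofReal ρ₀) (ENNReal.ofReal_pos.2 hρ) le_rfl
    simp only [iInf_lt_iff] at h1
    obtain ⟨t, ht1, ht2, ht3⟩ := h1
    calc μ F ≤ μ (⋃ n, t n ∩ F) := by
          apply measure_mono
          rw [← iUnion_inter]
          exact subset_inter ht1 le_rfl
      _ ≤ ∑' n, μ (t n ∩ F) := measure_iUnion_le _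
      _ ≤ ∑' n, C * ⨆ _ : (t n).Nonempty, Metric.ediam (t n) ^ s :=
          ENNReal.tsum_le_tsum fun n => hcov (t n) (ht2 n)
      _ = C * ∑' n, ⨆ _ : (t n).Nonempty, Metric.ediam (t n) ^ s := ENNReal.tsum_mul_left
      _ ≤ C * ε := mul_le_mul_right ht3.le _
  have hlim : Tendsto (fun ε : ℝ≥0 => (C : ℝ≥0∞) * (ε : ℝ≥0∞)) (𝓝[>] 0) (𝓝 0) := by
    have h2 : Tendsto (fun ε : ℝ≥0 => (ε : ℝ≥0∞)) (𝓝[>] 0) (𝓝 ((0 : ℝ≥0) : ℝ≥0∞)) :=
      (ENNReal.continuous_coe.tendsto 0).mono_left nhdsWithin_le_nhds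
    have h3 := ENNReal.Tendsto.const_mul h2 (Or.inr (ENNReal.coe_ne_top (r := C)))
    simpa using h3
  refine le_antisymm (ge_of_tendsto hlim ?_) bot_le
  filter_upwards [self_mem_nhdsWithin] with ε hε
  exact hmain ε hε

/-- Iteration of a decay estimate. -/
lemma iterate_bound {D : ℝ → ℝ} {ρ₀ K : ℝ} (hρ : 0 < ρ₀) (k : ℕ)
    (hmono : ∀ r s, r ≤ s → D r ≤ D s) (hD : ∀ r, 0 ≤ D r)
    (hstep : ∀ r, 0 < r → r ≤ ρ₀ → D (r / 2) ≤ K * r ^ k + (1 / 2) ^ (k + 1) * D r) :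
    ∃ C : ℝ, 0 ≤ C ∧ ∀ r, 0 < r → r ≤ ρ₀ → D r ≤ C * r ^ k := by
  set C : ℝ := max (2 ^ (k + 1) * K) (D ρ₀ / (ρ₀ / 2) ^ k) with hC
  have hC0 : 0 ≤ C := (div_nonneg (hD _) (by positivity)).trans (le_max_right _ _)
  refine ⟨C, hC0, ?_⟩
  have key : ∀ j : ℕ, ∀ r, 0 < r → ρ₀ / 2 < 2 ^ j * r → 2 ^ j * r ≤ ρ₀ → D r ≤ C * r ^ k := by
    intro j
    induction j with
    | zero =>
      intro r hr h1 h2
      rw [pow_zero, one_mul] at h1 h2
      have h3 : D r ≤ D ρ₀ := hmono _ _ h2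
      have h4 : D ρ₀ ≤ C * (ρ₀ / 2) ^ k := by
        rw [← div_le_iff₀ (by positivity)]
        exact le_max_right _ _
      have h5 : C * (ρ₀ / 2) ^ k ≤ C * r ^ k :=
        mul_le_mul_of_nonneg_left (pow_le_pow_left₀ (by positivity) h1.le k) hC0
      linarith
    | succ j ih =>
      intro r hr h1 h2
      have e1 : (2 : ℝ) ^ (j + 1) * r = 2 ^ j * (2 * r) := by ring
      rw [e1] at h1 h2
      have hb := ih (2 * r) (by positivity) h1 h2
      have h2r : 2 * r ≤ ρ₀ := by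
        have : (1 : ℝ) ≤ 2 ^ j := one_le_pow₀ (by norm_num)
        nlinarith
      have hs := hstep (2 * r) (by positivity) h2r
      rw [mul_div_cancel_left₀ r (two_ne_zero)] at hs
      have h6 : K ≤ C / 2 ^ (k + 1) := by
        rw [le_div_iff₀ (by positivity), mul_comm]
        exact le_max_left _ _
      have h7 : (2 * r) ^ k = 2 ^ k * r ^ k := by rw [mul_pow]
      rw [h7] at hs hb
      have h8 : K * (2 ^ k * r ^ k) ≤ C / 2 ^ (k + 1) * (2 ^ k * r ^ k) :=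
        mul_le_mul_of_nonneg_right h6 (by positivity)
      have h9 : (1 / 2 : ℝ) ^ (k + 1) * D (2 * r) ≤ (1 / 2) ^ (k + 1) * (C * (2 ^ k * r ^ k)) :=
        mul_le_mul_of_nonneg_left hb (by positivity)
      have h10 : C / 2 ^ (k + 1) * (2 ^ k * r ^ k) = C * r ^ k / 2 := by
        rw [pow_succ]; field_simp
      have h11 : (1 / 2 : ℝ) ^ (k + 1) * (C * (2 ^ k * r ^ k)) = C * r ^ k / 2 := by
        rw [one_div, inv_pow, pow_succ]; field_simp
      linarith
  intro r hr hr2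
  -- choose the dyadic scale
  obtain ⟨j, hj⟩ : ∃ j : ℕ, ρ₀ / 2 < 2 ^ j * r := by
    obtain ⟨j, hj⟩ := pow_unbounded_of_one_lt (ρ₀ / 2 / r) (one_lt_two (α := ℝ))
    exact ⟨j, by rwa [div_lt_iff₀ hr] at hj⟩
  classical
  have hex : ∃ j : ℕ, ρ₀ / 2 < 2 ^ j * r := ⟨j, hj⟩
  set i := Nat.find hex with hi
  have hi1 := Nat.find_spec hex
  refine key i r hr hi1 ?_
  rcases Nat.eq_zero_or_pos i with h0 | hpos
  · rw [h0, pow_zero, one_mul]; exact hr2
  · have hmin := Nat.find_min hex (Nat.sub_lt hpos one_pos)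
    rw [not_lt] at hmin
    have e2 : (2 : ℝ) ^ i * r = 2 * (2 ^ (i - 1) * r) := by
      obtain ⟨l, hl⟩ : ∃ l, i = l + 1 := ⟨i - 1, by omega⟩
      rw [hl, Nat.add_sub_cancel, pow_succ]; ring
    rw [e2]
    linarith

end Pool.Agent.R252.Jump
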